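import Pool.Agent.R243.RT.Four

set_option autoImplicit false

/-!
# The function belongs to `H^∞`; its Poisson extension
-/

namespace Pool.Agent.R243.RT

open Filter Topology MeasureTheory Set Metric ProbabilityTheory
open scoped ENNReal NNReal

/-- `f ∈ H^∞` of the infinite torus: bounded, with no Fourier coefficient outside the indices with
nonnegative entries -/
def IsHInf (f : (ℕ → UnitAddCircle) → ℂ) : Prop :=
  MemLp f ⊤ (Measure.infinitePi fun _ : ℕ => (AddCircle.haarAddCircle : Measure UnitAddCircle)) ∧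
    ∀ α : ℕ →₀ ℤ, ¬ (∀ n, 0 ≤ α n) →
      ∫ θ, f θ * ∏ n ∈ α.support, fourier (-α n) (θ n)
        ∂(Measure.infinitePi fun _ : ℕ => (AddCircle.haarAddCircle : Measure UnitAddCircle)) = 0

/-- the value `f(r e^{iθ})`: integral of `f` against the product of the Poisson measures of
parameters `r n`, centred at `θ` -/
noncomputable def poissonExt (f : (ℕ → UnitAddCircle) → ℂ) (r : ℕ → ℝ)
    (θ : ℕ → UnitAddCircle) : ℂ :=
  ∫ t, f (θ - t) ∂(Measure.infinitePi fun n => pm (r n))

theorem coef_FB (B : ℕ) (α : ℕ →₀ ℤ) {n₀ : ℕ} (hn : α n₀ < 0) :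
    ∫ θ, FB B θ * ∏ n ∈ α.support, (fourier (-α n) (θ n) : ℂ) ∂tm = 0 := by
  set s : Finset ℕ := Finset.range (off B) ∪ α.support with hs
  set g : ℕ → UnitAddCircle → ℂ := fun n x => (if n < off B then Fn n (zt x) else 1) * fourier (-α n) x
    with hg
  have hgm : ∀ n, Measurable (g n) := by
    intro n
    refine Measurable.mul ?_ (fourier (-α n)).continuous.measurable
    split_ifs
    · exact (Fn_zt_cont n).measurable
    · exact measurable_const
  have h1 : ∀ θ : ℕ → UnitAddCircle, FB B θ * ∏ n ∈ α.support, (fourier (-α n) (θ n) : ℂ) =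
      ∏ n ∈ s, g n (θ n) := by
    intro θ
    simp only [hg]
    rw [Finset.prod_mul_distrib]
    congr 1
    · unfold FB
      rw [← Finset.prod_subset (Finset.subset_union_left : Finset.range (off B) ⊆ s)]
      · refine Finset.prod_congr rfl fun n hn => ?_
        rw [if_pos (Finset.mem_range.1 hn)]
      · intro n _ hn
        rw [if_neg (by simpa using hn)]
    · rw [← Finset.prod_subset (Finset.subset_union_right : α.support ⊆ s)]
      intro n _ hn
      rw [Finsupp.notMem_support_iff.1 hn]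
      simp
  simp_rw [h1]
  rw [integral_prod_inf (ν := fun _ => haar) s g hgm]
  have hmem : n₀ ∈ s := Finset.mem_union_right _ (Finsupp.mem_support_iff.2 hn.ne)
  refine Finset.prod_eq_zero hmem ?_
  obtain ⟨k, hk⟩ := Int.eq_ofNat_of_zero_le (by omega : 0 ≤ -α n₀)
  have hk0 : k ≠ 0 := by
    rintro rfl
    simp at hk
    omega
  simp only [hg]
  rw [hk]
  have h2 : ∀ x : UnitAddCircle, (fourier (Int.ofNat k) x : ℂ) = zt x ^ k := fun x => fourier_nat k x
  simp_rw [fourier_nat]
  split_ifs with h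
  · exact coef_zero (Fn_dcc n₀) hk0
  · exact coef_zero (F := fun _ => 1) diffContOnCl_const hk0

theorem char_norm (α : ℕ →₀ ℤ) (θ : ℕ → UnitAddCircle) :
    ‖∏ n ∈ α.support, (fourier (-α n) (θ n) : ℂ)‖ = 1 := by
  rw [norm_prod]
  refine Finset.prod_eq_one fun n _ => ?_
  rw [fourier_apply]
  exact Circle.norm_coe _

theorem char_meas (α : ℕ →₀ ℤ) :
    Measurable fun θ : ℕ → UnitAddCircle => ∏ n ∈ α.support, (fourier (-α n) (θ n) : ℂ) := by
  refine Finset.measurable_fun_prod _ fun n _ => ?_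
  exact (fourier (-α n)).continuous.measurable.comp (measurable_pi_apply n)

theorem ff_hinf : IsHInf ff := by
  refine ⟨?_, fun α hα => ?_⟩
  · exact MemLp.of_bound ff_meas 1 (Eventually.of_forall ff_norm)
  · obtain ⟨n₀, hn⟩ : ∃ n, α n < 0 := by
      by_contra h
      push Not at h
      exact hα h
    have h1 : Tendsto (fun B => ∫ θ, FB B θ * ∏ n ∈ α.support, (fourier (-α n) (θ n) : ℂ) ∂tm) atTop
        (𝓝 (∫ θ, ff θ * ∏ n ∈ α.support, (fourier (-α n) (θ n) : ℂ) ∂tm)) := by
      apply tendsto_integral_of_dominated_convergence (fun _ => (1:ℝ))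
      · intro B
        exact ((FB_cont B).measurable.mul (char_meas α)).aestronglyMeasurable
      · exact integrable_const _
      · intro B
        refine Eventually.of_forall fun θ => ?_
        rw [norm_mul, char_norm, mul_one]
        exact FB_norm B θ
      · filter_upwards [ae_tendsto] with θ hθ
        exact hθ.mul_const _
    have h2 : ∀ B, ∫ θ, FB B θ * ∏ n ∈ α.support, (fourier (-α n) (θ n) : ℂ) ∂tm = 0 :=
      fun B => coef_FB B α hn
    simp_rw [h2] at h1
    exact (tendsto_nhds_unique h1 tendsto_const_nhds)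

theorem poisson_FB (B : ℕ) {R : ℕ → ℝ} (h0 : ∀ n, 0 ≤ R n) (h1 : ∀ n, R n < 1)
    (θ : ℕ → UnitAddCircle) : ∫ t, FB B (θ - t) ∂(Measure.infinitePi fun n => pm (R n)) =
      Complex.exp (-Se B R θ) := by
  have h2 : ∀ t : ℕ → UnitAddCircle, FB B (θ - t) =
      ∏ n ∈ Finset.range (off B), (fun n x => Fn n (zt (θ n - x))) n (t n) := by
    intro t
    rfl
  simp_rw [h2]
  rw [integral_prod_inf (ν := fun n => pm (R n)) _ (fun n x => Fn n (zt (θ n - x)))]
  · unfold Se
    rw [← Finset.sum_neg_distrib, Complex.exp_sum]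
    refine Finset.prod_congr rfl fun n _ => ?_
    rw [poisson_pm (h0 n) (h1 n) (Fn_dcc n)]
    rfl
  · intro n
    exact (Fn_zt_cont n).measurable.comp (measurable_const.sub measurable_id)

/-- the contribution of the coordinates with radius zero -/
noncomputable def tl (b : ℕ) : ℝ := (∑' i, sb i) - ∑ i ∈ Finset.range (b + 1), sb i

theorem tl_tendsto : Tendsto tl atTop (𝓝 0) := by
  have h1 := (sb_summable.hasSum.tendsto_sum_nat).comp (tendsto_add_atTop_nat 1)
  have h2 := (tendsto_const_nhds (x := ∑' i, sb i)).sub h1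
  rw [sub_self] at h2
  exact h2

theorem bs_zero {b : ℕ} {R : ℕ → ℝ} (h : ∀ n ∈ Finset.Ico (off b) (off (b + 1)), R n = 0)
    (θ : ℕ → UnitAddCircle) : bs b R θ = sb b := by
  unfold bs
  have hc : (Finset.Ico (off b) (off (b + 1))).card = Nb b := by
    rw [Nat.card_Ico, off_succ]
    omega
  have hN : (Nb b : ℂ) ≠ 0 := by exact_mod_cast (Nb_pos b).ne'
  have h2 : ∀ n ∈ Finset.Ico (off b) (off (b + 1)), cc n (R n * zt (θ n)) = (sb b / Nb b : ℝ) := by
    intro n hn
    rw [h n hn, Complex.ofReal_zero, zero_mul, cc_zero]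
    unfold dl
    rw [blk_mem hn]
  rw [Finset.sum_congr rfl h2, Finset.sum_const, hc, nsmul_eq_mul]
  push_cast
  field_simp

theorem Se_tendsto {b : ℕ} {R : ℕ → ℝ} (h : ∀ n, off (b + 1) ≤ n → R n = 0)
    (θ : ℕ → UnitAddCircle) : Tendsto (fun B => Se B R θ) atTop (𝓝 (Se (b + 1) R θ + tl b)) := by
  have h1 : ∀ k, Se (b + 1 + k) R θ = Se (b + 1) R θ +
      ((∑ i ∈ Finset.range (b + 1 + k), sb i - ∑ i ∈ Finset.range (b + 1), sb i : ℝ) : ℂ) := by
    intro k
    induction k with
    | zero => simp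
    | succ k ih =>
      rw [← add_assoc, Se_succ, ih, bs_zero, Finset.sum_range_succ _ (b + 1 + k)]
      · push_cast
        ring
      · intro n hn
        apply h
        rw [Finset.mem_Ico] at hn
        refine le_trans ?_ hn.1
        exact off_strictMono.monotone (by omega)
  have h2 : Tendsto (fun k => Se (b + 1) R θ +
      ((∑ i ∈ Finset.range (b + 1 + k), sb i - ∑ i ∈ Finset.range (b + 1), sb i : ℝ) : ℂ)) atTop
      (𝓝 (Se (b + 1) R θ + tl b)) := by
    refine tendsto_const_nhds.add ?_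
    have h3 : Tendsto (fun k => (∑ i ∈ Finset.range (b + 1 + k), sb i -
        ∑ i ∈ Finset.range (b + 1), sb i : ℝ)) atTop (𝓝 (tl b)) := by
      refine Tendsto.sub_const ?_ _
      have h4 := sb_summable.hasSum.tendsto_sum_nat
      refine h4.comp (tendsto_atTop_mono (fun k => ?_) tendsto_id)
      exact Nat.le_add_left k (b + 1)
    exact (Complex.continuous_ofReal.tendsto _).comp h3
  have h5 := h2.congr (fun k => (h1 k).symm)
  have h6 : Tendsto (fun k => Se (k + (b + 1)) R θ) atTop (𝓝 (Se (b + 1) R θ + tl b)) := by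
    refine h5.congr fun k => ?_
    rw [add_comm]
  exact (tendsto_add_atTop_iff_nat (b + 1)).1 h6

/-- the Poisson extension at finitely supported radii -/
theorem poissonExt_ff {b : ℕ} {R : ℕ → ℝ} (h0 : ∀ n, 0 ≤ R n) (h1 : ∀ n, R n < 1)
    (h : ∀ n, off (b + 1) ≤ n → R n = 0) :
    ∀ᵐ θ ∂tm, poissonExt ff R θ = Complex.exp (-(Se (b + 1) R θ + tl b)) := by
  have h2 := ae_sub (P := Measure.infinitePi fun n => pm (R n)) ae_tendsto
  have h3 := ae_sub (P := Measure.infinitePi fun n => pm (R n)) (p := fun θ => ff θ = ff_meas.mk ff θ)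
    ff_meas.ae_eq_mk
  filter_upwards [h2, h3] with θ hθ hθ'
  have h4 : Tendsto (fun B => ∫ t, FB B (θ - t) ∂(Measure.infinitePi fun n => pm (R n))) atTop
      (𝓝 (∫ t, ff (θ - t) ∂(Measure.infinitePi fun n => pm (R n)))) := by
    apply tendsto_integral_of_dominated_convergence (fun _ => (1:ℝ))
    · intro B
      exact ((FB_cont B).measurable.comp (by fun_prop)).aestronglyMeasurable
    · exact integrable_const _
    · intro B
      exact Eventually.of_forall fun t => FB_norm B _
    · exact hθ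
  have h5 : Tendsto (fun B => ∫ t, FB B (θ - t) ∂(Measure.infinitePi fun n => pm (R n))) atTop
      (𝓝 (Complex.exp (-(Se (b + 1) R θ + tl b)))) := by
    simp_rw [poisson_FB _ h0 h1]
    exact (Complex.continuous_exp.tendsto _).comp (Se_tendsto h θ).neg
  exact tendsto_nhds_unique h4 h5

end Pool.Agent.R243.RT
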