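import Pool.Agent.R243.RT.Three

set_option autoImplicit false

/-!
# The parameters of the construction and the bounded function
-/

namespace Pool.Agent.R243.RT

open Filter Topology MeasureTheory Set Metric ProbabilityTheory
open scoped ENNReal NNReal

noncomputable def rb (b : ℕ) : ℝ := 1 - Real.exp (-(Real.pi * 2 ^ b))

theorem rb_lt (b : ℕ) : rb b < 1 := by
  unfold rb
  linarith [Real.exp_pos (-(Real.pi * 2 ^ b))]

theorem rb_pos (b : ℕ) : 0 < rb b := by
  unfold rb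
  have h1 : -(Real.pi * 2 ^ b) < 0 := by
    have := Real.pi_pos
    have : 0 < Real.pi * 2 ^ b := by positivity
    linarith
  have := Real.exp_lt_exp.2 h1
  rw [Real.exp_zero] at this
  linarith

noncomputable def sb (b : ℕ) : ℝ := 1 / Kr (rb b)

theorem Kr_rb (b : ℕ) : (2:ℝ) ^ b ≤ Kr (rb b) := by
  refine le_trans (le_of_eq ?_) (Kr_ge (rb_pos b) (rb_lt b))
  unfold rb
  rw [sub_sub_cancel, one_div, one_div, Real.log_inv, Real.log_exp]
  have := Real.pi_pos
  field_simp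

theorem Kr_pos (b : ℕ) : 0 < Kr (rb b) := lt_of_lt_of_le (by positivity) (Kr_rb b)

theorem sb_pos (b : ℕ) : 0 < sb b := one_div_pos.2 (Kr_pos b)

theorem sb_le (b : ℕ) : sb b ≤ (1 / 2) ^ b := by
  unfold sb
  rw [one_div_pow]
  exact one_div_le_one_div_of_le (by positivity) (Kr_rb b)

theorem sb_mul (b : ℕ) : sb b * Kr (rb b) = 1 := by
  unfold sb
  rw [one_div, inv_mul_cancel₀ (Kr_pos b).ne']

theorem sb_summable : Summable sb :=
  Summable.of_nonneg_of_le (fun b => (sb_pos b).le) sb_le summable_geometric_two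

theorem sb_tendsto : Tendsto sb atTop (𝓝 0) := sb_summable.tendsto_atTop_zero

noncomputable def Lb (b : ℕ) : ℝ := 2 / (1 - rb b)

theorem Lb_pos (b : ℕ) : 0 < Lb b := div_pos two_pos (by linarith [rb_lt b])

noncomputable def Nb (b : ℕ) : ℕ := ⌈(Lb b) ^ 2⌉₊ + 1

theorem Nb_pos (b : ℕ) : 0 < Nb b := Nat.succ_pos _

theorem Nb_ge (b : ℕ) : (Lb b) ^ 2 ≤ Nb b := by
  unfold Nb
  push_cast
  linarith [Nat.le_ceil ((Lb b) ^ 2)]

noncomputable def qb (b : ℕ) : ℕ := ⌈2 / (1 - rb b) ^ 2⌉₊ + 1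

theorem qb_pos (b : ℕ) : 0 < qb b := Nat.succ_pos _

theorem qb_one (b : ℕ) : (1:ℝ) ≤ qb b := by
  have := qb_pos b
  exact_mod_cast this

theorem qb_ge (b : ℕ) : 2 / (1 - rb b) ^ 2 ≤ qb b := by
  unfold qb
  push_cast
  linarith [Nat.le_ceil (2 / (1 - rb b) ^ 2)]

noncomputable def Mb (b : ℕ) : ℕ := qb b ^ 2

theorem Mb_pos (b : ℕ) : 0 < Mb b := pow_pos (qb_pos b) 2

noncomputable def off (b : ℕ) : ℕ := ∑ i ∈ Finset.range b, Nb i

theorem off_succ (b : ℕ) : off (b + 1) = off b + Nb b := Finset.sum_range_succ _ _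

theorem off_lt (b : ℕ) : off b < off (b + 1) := by
  rw [off_succ]
  have := Nb_pos b
  omega

theorem off_strictMono : StrictMono off := strictMono_nat_of_lt_succ off_lt

theorem exists_blk (n : ℕ) : ∃ b, n < off (b + 1) :=
  ⟨n, lt_of_lt_of_le (Nat.lt_succ_self n) (off_strictMono.id_le (n + 1))⟩

noncomputable def blk (n : ℕ) : ℕ := Nat.find (exists_blk n)

theorem lt_off_blk (n : ℕ) : n < off (blk n + 1) := Nat.find_spec (exists_blk n)

theorem off_blk_le (n : ℕ) : off (blk n) ≤ n := by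
  rcases h : blk n with _ | c
  · simp [off]
  · have h2 : c < Nat.find (exists_blk n) := by
      have : blk n = Nat.find (exists_blk n) := rfl
      omega
    exact not_lt.1 (Nat.find_min (exists_blk n) h2)

theorem blk_eq {b n : ℕ} (h : off b ≤ n) (h' : n < off (b + 1)) : blk n = b := by
  have h1 := lt_off_blk n
  have h2 := off_blk_le n
  have h3 : blk n < b + 1 := off_strictMono.lt_iff_lt.1 (lt_of_le_of_lt h2 h')
  have h4 : b < blk n + 1 := off_strictMono.lt_iff_lt.1 (lt_of_le_of_lt h h1)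
  omega

theorem blk_mem {b n : ℕ} (h : n ∈ Finset.Ico (off b) (off (b + 1))) : blk n = b := by
  rw [Finset.mem_Ico] at h
  exact blk_eq h.1 h.2

noncomputable def mm (n : ℕ) : ℕ := Mb (blk n) ^ (Nb (blk n) - 1 - (n - off (blk n)))

theorem mm_pos (n : ℕ) : 0 < mm n := pow_pos (Mb_pos _) _

theorem mm_ne (n : ℕ) : mm n ≠ 0 := (mm_pos n).ne'

noncomputable def dl (n : ℕ) : ℝ := sb (blk n) / Nb (blk n)

theorem dl_pos (n : ℕ) : 0 < dl n := div_pos (sb_pos _) (by exact_mod_cast Nb_pos _)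

/-- the function of one variable in the exponent -/
noncomputable def cc (n : ℕ) (z : ℂ) : ℂ := (dl n : ℂ) * hr (rb (blk n)) (z ^ mm n)

theorem pow_norm_le {z : ℂ} (hz : ‖z‖ ≤ 1) (m : ℕ) : ‖z ^ m‖ ≤ 1 := by
  rw [norm_pow]
  exact pow_le_one₀ (norm_nonneg _) hz

theorem cc_re {z : ℂ} (hz : ‖z‖ ≤ 1) (n : ℕ) : 0 ≤ (cc n z).re := by
  unfold cc
  rw [Complex.re_ofReal_mul]
  exact mul_nonneg (dl_pos n).le (hr_re (rb_pos _) (rb_lt _) (pow_norm_le hz _))

theorem cc_zero (n : ℕ) : cc n 0 = dl n := by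
  unfold cc
  rw [zero_pow (mm_ne n), hr_zero (rb_pos _) (rb_lt _), mul_one]

theorem cc_dcc (n : ℕ) : DiffContOnCl ℂ (cc n) (ball 0 1) := by
  have h1 : DiffContOnCl ℂ (fun z : ℂ => hr (rb (blk n)) (z ^ mm n)) (ball 0 1) := by
    refine (hr_diff (rb_pos (blk n)) (rb_lt _)).comp
      (Differentiable.diffContOnCl (by fun_prop : Differentiable ℂ fun z : ℂ => z ^ mm n)) ?_
    intro z hz
    rw [mem_ball_zero_iff] at hz ⊢
    rw [norm_pow]
    exact pow_lt_one₀ (norm_nonneg _) hz (mm_ne n)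
  exact h1.const_smul (dl n : ℂ)

/-- one factor -/
noncomputable def Fn (n : ℕ) (z : ℂ) : ℂ := Complex.exp (-cc n z)

theorem Fn_dcc (n : ℕ) : DiffContOnCl ℂ (Fn n) (ball 0 1) := by
  have h1 := (cc_dcc n).neg
  refine ⟨h1.differentiableOn.cexp, ?_⟩
  exact h1.continuousOn.cexp

theorem Fn_norm {z : ℂ} (hz : ‖z‖ ≤ 1) (n : ℕ) : ‖Fn n z‖ ≤ 1 := by
  unfold Fn
  rw [Complex.norm_exp, Complex.neg_re]
  exact Real.exp_le_one_iff.2 (by linarith [cc_re hz n])

theorem cc_zt_cont (n : ℕ) : Continuous fun t => cc n (zt t) := by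
  have h1 := (cc_dcc n).continuousOn
  rw [closure_ball (0:ℂ) one_ne_zero] at h1
  refine h1.comp_continuous zt_cont fun t => ?_
  rw [mem_closedBall_zero_iff]
  exact (zt_norm t).le

theorem Fn_zt_cont (n : ℕ) : Continuous fun t => Fn n (zt t) := by
  unfold Fn
  exact (cc_zt_cont n).neg.cexp

/-- the exponent with `B` blocks -/
noncomputable def Se (B : ℕ) (R : ℕ → ℝ) (θ : ℕ → UnitAddCircle) : ℂ :=
  ∑ n ∈ Finset.range (off B), cc n (R n * zt (θ n))

/-- the block sum -/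
noncomputable def bs (b : ℕ) (R : ℕ → ℝ) (θ : ℕ → UnitAddCircle) : ℂ :=
  ∑ n ∈ Finset.Ico (off b) (off (b + 1)), cc n (R n * zt (θ n))

theorem Se_succ (B : ℕ) (R : ℕ → ℝ) (θ : ℕ → UnitAddCircle) : Se (B + 1) R θ = Se B R θ + bs B R θ := by
  unfold Se bs
  rw [Finset.range_eq_Ico, Finset.range_eq_Ico, Finset.sum_Ico_consecutive]
  · exact Nat.zero_le _
  · exact (off_lt B).le

theorem Se_eq (B : ℕ) (R : ℕ → ℝ) (θ : ℕ → UnitAddCircle) :
    Se B R θ = ∑ b ∈ Finset.range B, bs b R θ := by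
  induction B with
  | zero => simp [Se, off]
  | succ B ih => rw [Se_succ, ih, Finset.sum_range_succ]

noncomputable def FB (B : ℕ) (θ : ℕ → UnitAddCircle) : ℂ :=
  ∏ n ∈ Finset.range (off B), Fn n (zt (θ n))

theorem FB_eq (B : ℕ) (θ : ℕ → UnitAddCircle) : FB B θ = Complex.exp (-Se B (fun _ => 1) θ) := by
  unfold FB Se Fn
  rw [← Complex.exp_sum, Finset.sum_neg_distrib]
  simp

theorem FB_norm (B : ℕ) (θ : ℕ → UnitAddCircle) : ‖FB B θ‖ ≤ 1 := by
  unfold FB
  rw [norm_prod]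
  exact Finset.prod_le_one (fun _ _ => norm_nonneg _) fun n _ => Fn_norm (zt_norm _).le n

theorem FB_cont (B : ℕ) : Continuous (FB B) := by
  unfold FB
  refine continuous_finsetProd _ fun n _ => ?_
  exact (Fn_zt_cont n).comp (continuous_apply n)

/-- the limiting exponent -/
noncomputable def Hh (θ : ℕ → UnitAddCircle) : ℂ := ∑' b, bs b (fun _ => 1) θ

/-- the bounded function -/
noncomputable def ff (θ : ℕ → UnitAddCircle) : ℂ := Complex.exp (-Hh θ)

theorem bs_re (b : ℕ) (θ : ℕ → UnitAddCircle) : 0 ≤ (bs b (fun _ => 1) θ).re := by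
  unfold bs
  rw [Complex.re_sum]
  refine Finset.sum_nonneg fun n _ => ?_
  rw [Complex.ofReal_one, one_mul]
  exact cc_re (zt_norm _).le n

theorem Hh_re (θ : ℕ → UnitAddCircle) : 0 ≤ (Hh θ).re := by
  unfold Hh
  by_cases h : Summable fun b => bs b (fun _ => 1) θ
  · rw [Complex.re_tsum h]
    exact tsum_nonneg fun b => bs_re b θ
  · rw [tsum_eq_zero_of_not_summable h]
    simp

theorem ff_norm (θ : ℕ → UnitAddCircle) : ‖ff θ‖ ≤ 1 := by
  unfold ff
  rw [Complex.norm_exp, Complex.neg_re]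
  exact Real.exp_le_one_iff.2 (by linarith [Hh_re θ])

theorem ff_ne (θ : ℕ → UnitAddCircle) : ff θ ≠ 0 := Complex.exp_ne_zero _

/-- the block average, centred -/
theorem law (x : ℕ → UnitAddCircle → ℂ) (hx : ∀ b, Measurable (x b))
    (hC : ∀ b t, ‖x b t‖ ≤ Lb b) : ∀ᵐ θ ∂tm, Summable fun b => ((sb b / Nb b : ℝ) : ℂ) *
      ∑ n ∈ Finset.Ico (off b) (off (b + 1)), (x b (mm n • θ n) - ∫ t, x b t ∂haar) := by
  refine ae_summable_complex hx hC (fun b => Finset.Ico (off b) (off (b + 1))) mm_ne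
    (fun b => sb b / Nb b) fun b => ?_
  have hc : (Finset.Ico (off b) (off (b + 1))).card = Nb b := by
    rw [Nat.card_Ico, off_succ]
    omega
  simp only [hc]
  have hN : (0:ℝ) < Nb b := by exact_mod_cast Nb_pos b
  have h1 : (sb b / Nb b) ^ 2 * (Nb b) * Lb b ^ 2 = sb b * sb b * (Lb b ^ 2 / Nb b) := by
    field_simp
  rw [h1]
  have h2 : Lb b ^ 2 / Nb b ≤ 1 := by
    rw [div_le_one hN]
    exact Nb_ge b
  have h3 : sb b * sb b ≤ (1 / 2) ^ b * (1 / 2) ^ b :=
    mul_le_mul (sb_le b) (sb_le b) (sb_pos b).le (by positivity)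
  have h4 : 0 ≤ sb b * sb b := mul_self_nonneg _
  have h5 : 0 ≤ Lb b ^ 2 / Nb b := by positivity
  nlinarith

theorem sum_split (x : ℕ → UnitAddCircle → ℂ) (b : ℕ) (θ : ℕ → UnitAddCircle) :
    ((sb b / Nb b : ℝ) : ℂ) * ∑ n ∈ Finset.Ico (off b) (off (b + 1)), x b (mm n • θ n) =
    ((sb b / Nb b : ℝ) : ℂ) *
      ∑ n ∈ Finset.Ico (off b) (off (b + 1)), (x b (mm n • θ n) - ∫ t, x b t ∂haar) +
      sb b * ∫ t, x b t ∂haar := by
  have hc : (Finset.Ico (off b) (off (b + 1))).card = Nb b := by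
    rw [Nat.card_Ico, off_succ]
    omega
  have hN : (Nb b : ℂ) ≠ 0 := by exact_mod_cast (Nb_pos b).ne'
  rw [Finset.sum_sub_distrib, Finset.sum_const, hc, nsmul_eq_mul]
  push_cast
  field_simp
  ring

theorem bs_one (b : ℕ) (θ : ℕ → UnitAddCircle) : bs b (fun _ => 1) θ =
    ((sb b / Nb b : ℝ) : ℂ) * ∑ n ∈ Finset.Ico (off b) (off (b + 1)),
      (fun b t => hr (rb b) (zt t)) b (mm n • θ n) := by
  unfold bs cc dl
  rw [Finset.mul_sum]
  refine Finset.sum_congr rfl fun n hn => ?_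
  rw [blk_mem hn, Complex.ofReal_one, one_mul]
  simp only
  rw [zt_nsmul]

theorem ae_summable_bs : ∀ᵐ θ ∂tm, Summable fun b => bs b (fun _ => 1) θ := by
  have h1 := law (fun b t => hr (rb b) (zt t)) (fun b => (hr_zt_cont (rb_pos b) (rb_lt b)).measurable)
    (fun b t => hr_norm_le (rb_pos b) (rb_lt b) (zt_norm t).le)
  filter_upwards [h1] with θ hθ
  have h2 : Summable fun b => (sb b : ℂ) * ∫ t, (fun b t => hr (rb b) (zt t)) b t ∂haar := by
    refine (Complex.ofRealCLM.summable sb_summable).congr fun b => ?_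
    simp only
    rw [hr_mean (rb_pos b) (rb_lt b), mul_one]
    rfl
  refine (hθ.add h2).congr fun b => ?_
  rw [bs_one]
  exact (sum_split (fun b t => hr (rb b) (zt t)) b θ).symm

theorem FB_tendsto {θ : ℕ → UnitAddCircle} (h : Summable fun b => bs b (fun _ => 1) θ) :
    Tendsto (fun B => FB B θ) atTop (𝓝 (ff θ)) := by
  have h1 : Tendsto (fun B => Se B (fun _ => 1) θ) atTop (𝓝 (Hh θ)) := by
    simp_rw [Se_eq]
    exact h.hasSum.tendsto_sum_nat
  simp_rw [FB_eq]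
  exact (Complex.continuous_exp.tendsto _).comp h1.neg

theorem ae_tendsto : ∀ᵐ θ ∂tm, Tendsto (fun B => FB B θ) atTop (𝓝 (ff θ)) := by
  filter_upwards [ae_summable_bs] with θ hθ
  exact FB_tendsto hθ

theorem ff_meas : AEStronglyMeasurable ff tm :=
  aestronglyMeasurable_of_tendsto_ae atTop (fun B => (FB_cont B).aestronglyMeasurable) ae_tendsto

end Pool.Agent.R243.RT
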