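import Mathlib

set_option autoImplicit false

/-!
# One variable: the Poisson measures on the circle `ℝ/ℤ` and the functions `(1 + r w)/(1 - r w)`
-/

namespace Pool.Agent.R243.RT

open Filter Topology MeasureTheory Set Metric
open scoped ENNReal NNReal

/-- Haar probability measure of the circle `ℝ/ℤ` -/
noncomputable abbrev haar : Measure UnitAddCircle := AddCircle.haarAddCircle

/-- the coordinate `e^{2πit}` -/
noncomputable def zt (t : UnitAddCircle) : ℂ := fourier 1 t

theorem zt_cont : Continuous zt := (fourier 1).continuous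

theorem zt_norm (t : UnitAddCircle) : ‖zt t‖ = 1 := by
  unfold zt
  rw [fourier_apply]
  exact Circle.norm_coe _

theorem zt_add (s t : UnitAddCircle) : zt (s + t) = zt s * zt t := by
  unfold zt
  rw [fourier_one, fourier_one, fourier_one, AddCircle.toCircle_add]
  push_cast
  rfl

theorem zt_neg (t : UnitAddCircle) : zt (-t) = (zt t)⁻¹ := by
  unfold zt
  rw [fourier_one, fourier_one, AddCircle.toCircle_neg]
  push_cast
  rfl

theorem zt_ne (t : UnitAddCircle) : zt t ≠ 0 := by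
  intro h
  have := zt_norm t
  rw [h, norm_zero] at this
  exact zero_ne_one this

theorem zt_nsmul (n : ℕ) (t : UnitAddCircle) : zt (n • t) = zt t ^ n := by
  induction n with
  | zero => simp [zt]
  | succ n ih => rw [succ_nsmul, zt_add, ih, pow_succ]

theorem fourier_nat (n : ℕ) (t : UnitAddCircle) : (fourier (n : ℤ) t : ℂ) = zt t ^ n := by
  rw [← zt_nsmul]
  unfold zt
  rw [fourier_one, fourier_apply, natCast_zsmul]

theorem integral_zt {E : Type*} [NormedAddCommGroup E] [NormedSpace ℝ E] (φ : ℂ → E) :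
    ∫ t : UnitAddCircle, φ (zt t) ∂haar = Real.circleAverage φ 0 1 := by
  rw [Real.circleAverage_def, AddCircle.integral_haarAddCircle]
  rw [inv_one, one_smul, ← UnitAddCircle.intervalIntegral_preimage 0]
  have h2 : ∀ a : ℝ, φ (zt (a : UnitAddCircle)) =
      (fun θ : ℝ => φ (circleMap 0 1 θ)) ((2 * Real.pi) * a) := by
    intro a
    simp only
    congr 1
    unfold zt
    rw [fourier_coe_apply, circleMap_zero, Complex.ofReal_one, one_mul]
    congr 1
    push_cast
    ring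
  simp_rw [h2]
  rw [intervalIntegral.integral_comp_mul_left (fun θ : ℝ => φ (circleMap 0 1 θ))
    (by positivity)]
  simp

/-- the density of the Poisson measure -/
noncomputable def pk (ρ : ℝ) (t : UnitAddCircle) : ℝ := (1 - ρ ^ 2) / ‖zt t - ρ‖ ^ 2

theorem zt_sub_ne {ρ : ℝ} (h0 : 0 ≤ ρ) (h1 : ρ < 1) (t : UnitAddCircle) : 0 < ‖zt t - ρ‖ := by
  rw [norm_pos_iff]
  intro h
  have h2 : ‖zt t‖ = ‖(ρ:ℂ)‖ := by rw [sub_eq_zero.1 h]
  rw [zt_norm, Complex.norm_real, Real.norm_of_nonneg h0] at h2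
  linarith

theorem pk_cont {ρ : ℝ} (h0 : 0 ≤ ρ) (h1 : ρ < 1) : Continuous (pk ρ) := by
  unfold pk
  refine continuous_const.div ((zt_cont.sub continuous_const).norm.pow 2) fun t => ?_
  have := zt_sub_ne h0 h1 t
  positivity

theorem pk_nonneg {ρ : ℝ} (h0 : 0 ≤ ρ) (h1 : ρ < 1) (t : UnitAddCircle) : 0 ≤ pk ρ t := by
  unfold pk
  have : 0 ≤ 1 - ρ ^ 2 := by nlinarith
  positivity

theorem integrable_cont {E : Type*} [NormedAddCommGroup E] {f : UnitAddCircle → E}
    (hf : Continuous f) (ν : Measure UnitAddCircle) [IsFiniteMeasure ν] : Integrable f ν :=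
  hf.integrable_of_hasCompactSupport (HasCompactSupport.of_compactSpace f)

/-- symmetry of the kernel -/
theorem pk_symm (ρ : ℝ) (θ s : UnitAddCircle) :
    pk ρ (θ - s) = poissonKernel 0 (ρ * zt θ) (zt s) := by
  unfold pk
  rw [poissonKernel_def]
  simp only [sub_zero]
  have h1 : zt (θ - s) - ρ = (zt s)⁻¹ * (zt θ - ρ * zt s) := by
    rw [sub_eq_add_neg θ s, zt_add, zt_neg, mul_sub]
    have := zt_ne s
    field_simp
  have h2 : ‖zt (θ - s) - ρ‖ ^ 2 = ‖zt θ - ρ * zt s‖ ^ 2 := by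
    rw [h1, norm_mul, norm_inv, zt_norm, inv_one, one_mul]
  have h3 : ‖zt θ - ρ * zt s‖ ^ 2 = ‖zt s - ρ * zt θ‖ ^ 2 := by
    have ha := zt_norm θ
    have hb := zt_norm s
    have key : ∀ a b : ℂ, ‖a - ρ * b‖ ^ 2 = ‖a‖ ^ 2 - 2 * ρ * (a.re * b.re + a.im * b.im) + ρ ^ 2 * ‖b‖ ^ 2 := by
      intro a b
      rw [← Complex.normSq_eq_norm_sq, ← Complex.normSq_eq_norm_sq, ← Complex.normSq_eq_norm_sq,
        Complex.normSq_apply, Complex.normSq_apply, Complex.normSq_apply]
      simp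
      ring
    rw [key, key, ha, hb]
    ring
  rw [h2, h3, zt_norm, norm_mul, zt_norm, Complex.norm_real, mul_one, Real.norm_eq_abs, sq_abs]
  norm_num

/-- the Poisson integral formula -/
theorem poisson_pk {ρ : ℝ} (h0 : 0 ≤ ρ) (h1 : ρ < 1) {F : ℂ → ℂ} (hF : DiffContOnCl ℂ F (ball 0 1))
    (θ : UnitAddCircle) : ∫ t, (pk ρ t : ℂ) * F (zt (θ - t)) ∂haar = F (ρ * zt θ) := by
  have hw : (ρ * zt θ : ℂ) ∈ ball (0:ℂ) 1 := by
    rw [mem_ball_zero_iff, norm_mul, zt_norm, mul_one, Complex.norm_real, Real.norm_of_nonneg h0]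
    exact h1
  have h2 := hF.circleAverage_poissonKernel_smul hw
  rw [← integral_zt] at h2
  rw [← h2]
  rw [← integral_sub_left_eq_self _ haar θ]
  refine integral_congr_ae (Eventually.of_forall fun s => ?_)
  beta_reduce
  rw [sub_sub_cancel, pk_symm]
  simp only [Pi.smul_apply', Complex.real_smul]

theorem pk_integral {ρ : ℝ} (h0 : 0 ≤ ρ) (h1 : ρ < 1) : ∫ t, pk ρ t ∂haar = 1 := by
  have h2 := poisson_pk h0 h1 (F := fun _ => 1) diffContOnCl_const 0
  simp only [mul_one] at h2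
  rw [integral_complex_ofReal] at h2
  exact_mod_cast h2

open Classical in
/-- the Poisson probability measure of parameter `ρ ∈ [0,1)` (Haar measure for other `ρ`) -/
noncomputable def pm (ρ : ℝ) : Measure UnitAddCircle :=
  if 0 ≤ ρ ∧ ρ < 1 then haar.withDensity (fun t => ENNReal.ofReal (pk ρ t)) else haar

theorem pm_eq {ρ : ℝ} (h0 : 0 ≤ ρ) (h1 : ρ < 1) :
    pm ρ = haar.withDensity (fun t => ENNReal.ofReal (pk ρ t)) := if_pos ⟨h0, h1⟩

instance (ρ : ℝ) : IsProbabilityMeasure (pm ρ) := by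
  unfold pm
  split_ifs with h
  · constructor
    rw [withDensity_apply _ MeasurableSet.univ, Measure.restrict_univ,
      ← ofReal_integral_eq_lintegral_ofReal (integrable_cont (pk_cont h.1 h.2) _)
        (Eventually.of_forall (pk_nonneg h.1 h.2)), pk_integral h.1 h.2, ENNReal.ofReal_one]
  · infer_instance

theorem integral_pm {ρ : ℝ} (h0 : 0 ≤ ρ) (h1 : ρ < 1) (g : UnitAddCircle → ℂ) :
    ∫ t, g t ∂pm ρ = ∫ t, (pk ρ t : ℂ) * g t ∂haar := by
  rw [pm_eq h0 h1, integral_withDensity_eq_integral_toReal_smul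
    (pk_cont h0 h1).measurable.ennreal_ofReal (Eventually.of_forall fun t => ENNReal.ofReal_lt_top)]
  refine integral_congr_ae (Eventually.of_forall fun t => ?_)
  beta_reduce
  rw [ENNReal.toReal_ofReal (pk_nonneg h0 h1 t), Complex.real_smul]

theorem poisson_pm {ρ : ℝ} (h0 : 0 ≤ ρ) (h1 : ρ < 1) {F : ℂ → ℂ} (hF : DiffContOnCl ℂ F (ball 0 1))
    (θ : UnitAddCircle) : ∫ t, F (zt (θ - t)) ∂pm ρ = F (ρ * zt θ) := by
  rw [integral_pm h0 h1, poisson_pk h0 h1 hF]

/-- vanishing of the negative Fourier coefficients -/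
theorem coef_zero {F : ℂ → ℂ} (hF : DiffContOnCl ℂ F (ball 0 1)) {k : ℕ} (hk : k ≠ 0) :
    ∫ t, F (zt t) * zt t ^ k ∂haar = 0 := by
  have h1 : DiffContOnCl ℂ (fun z => F z * z ^ k) (ball 0 |1|) := by
    rw [abs_one]
    exact hF.smul (Differentiable.diffContOnCl (by fun_prop : Differentiable ℂ fun z : ℂ => z ^ k))
  have h2 := h1.circleAverage
  rw [← integral_zt] at h2
  rw [h2, zero_pow hk, mul_zero]

theorem mean_value {F : ℂ → ℂ} (hF : DiffContOnCl ℂ F (ball 0 1)) :
    ∫ t, F (zt t) ∂haar = F 0 := by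
  have h1 : DiffContOnCl ℂ F (ball 0 |1|) := by
    rw [abs_one]
    exact hF
  have h2 := h1.circleAverage
  rw [← integral_zt] at h2
  exact h2

/-- powers preserve the distribution -/
theorem integral_pow {E : Type*} [NormedAddCommGroup E] [NormedSpace ℝ E] {φ : UnitAddCircle → E}
    (hφ : AEStronglyMeasurable φ haar) {m : ℕ} (hm : m ≠ 0) :
    ∫ t, φ (m • t) ∂haar = ∫ t, φ t ∂haar := by
  have h1 : MeasurePreserving (fun t : UnitAddCircle => (m : ℤ) • t) haar haar :=
    MeasureTheory.Measure.measurePreserving_zsmul haar (by exact_mod_cast hm)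
  have h2 : ∫ t, φ t ∂(Measure.map (fun t : UnitAddCircle => (m : ℤ) • t) haar) =
      ∫ t, φ ((m : ℤ) • t) ∂haar := by
    apply integral_map h1.measurable.aemeasurable
    rw [h1.map_eq]
    exact hφ
  rw [h1.map_eq] at h2
  rw [h2]
  simp only [natCast_zsmul]

end Pool.Agent.R243.RT
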