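import Pool.Agent.R243.RT.Five

set_option autoImplicit false

/-!
# The radii and the failure of convergence
-/

namespace Pool.Agent.R243.RT

open Filter Topology MeasureTheory Set Metric ProbabilityTheory
open scoped ENNReal NNReal

noncomputable def Cc (b : ℕ) : ℝ :=
  ∑ n ∈ Finset.range (off b), dl n * (2 / (1 - rb (blk n)) ^ 2 * mm n)

noncomputable def Dd (b : ℕ) : ℝ := ∑ i ∈ Finset.range (b + 1), (qb i : ℝ) * Mb i ^ Nb i

theorem Cc_term (n : ℕ) : 0 ≤ dl n * (2 / (1 - rb (blk n)) ^ 2 * mm n) := by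
  have := dl_pos n
  positivity

theorem Cc_nonneg (b : ℕ) : 0 ≤ Cc b := Finset.sum_nonneg fun n _ => Cc_term n

theorem Dd_term (i : ℕ) : 0 ≤ (qb i : ℝ) * Mb i ^ Nb i := by positivity

theorem Dd_nonneg (b : ℕ) : 0 ≤ Dd b := Finset.sum_nonneg fun n _ => Dd_term n

theorem Cc_mono {b c : ℕ} (h : b ≤ c) : Cc b ≤ Cc c := by
  unfold Cc
  refine Finset.sum_le_sum_of_subset_of_nonneg ?_ fun n _ _ => Cc_term n
  exact Finset.range_subset_range.2 (off_strictMono.monotone h)

theorem Dd_mono {b c : ℕ} (h : b ≤ c) : Dd b ≤ Dd c := by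
  unfold Dd
  refine Finset.sum_le_sum_of_subset_of_nonneg ?_ fun n _ _ => Dd_term n
  exact Finset.range_subset_range.2 (by omega)

theorem Dd_ge {i b : ℕ} (h : i ≤ b) : (qb i : ℝ) * Mb i ^ Nb i ≤ Dd b := by
  unfold Dd
  exact Finset.single_le_sum (f := fun i => (qb i : ℝ) * Mb i ^ Nb i) (fun n _ => Dd_term n)
    (Finset.mem_range.2 (by omega))

noncomputable def et (b : ℕ) : ℝ := (1 / 2) ^ b / (1 + Cc b + Dd b)

theorem et_den (b : ℕ) : 1 ≤ 1 + Cc b + Dd b := by linarith [Cc_nonneg b, Dd_nonneg b]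

theorem et_pos (b : ℕ) : 0 < et b := div_pos (by positivity) (by linarith [et_den b])

theorem et_anti {b c : ℕ} (h : b ≤ c) : et c ≤ et b := by
  unfold et
  refine div_le_div₀ (by positivity) ?_ (by linarith [et_den b]) (by linarith [Cc_mono h, Dd_mono h])
  exact pow_le_pow_of_le_one (by norm_num) (by norm_num) h

theorem et_le (b : ℕ) : et b ≤ (1 / 2) ^ b := div_le_self (by positivity) (et_den b)

theorem et_tendsto : Tendsto et atTop (𝓝 0) :=
  squeeze_zero (fun b => (et_pos b).le) et_le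
    (tendsto_pow_atTop_nhds_zero_of_lt_one (by norm_num) (by norm_num))

theorem et_C (b : ℕ) : et b * Cc b ≤ (1 / 2) ^ b := by
  unfold et
  rw [div_mul_eq_mul_div, div_le_iff₀ (by linarith [et_den b])]
  refine mul_le_mul_of_nonneg_left ?_ (by positivity)
  linarith [Dd_nonneg b]

theorem et_D {i b : ℕ} (h : i ≤ b) : et b * ((qb i : ℝ) * Mb i ^ Nb i) ≤ 1 := by
  have h1 : et b * ((qb i : ℝ) * Mb i ^ Nb i) ≤ et b * Dd b :=
    mul_le_mul_of_nonneg_left (Dd_ge h) (et_pos b).le
  refine h1.trans ?_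
  unfold et
  rw [div_mul_eq_mul_div, div_le_iff₀ (by linarith [et_den b])]
  have h2 : ((1:ℝ) / 2) ^ b ≤ 1 := pow_le_one₀ (by norm_num) (by norm_num)
  have h3 : ((1:ℝ) / 2) ^ b * Dd b ≤ 1 * Dd b := mul_le_mul_of_nonneg_right h2 (Dd_nonneg b)
  linarith [Cc_nonneg b]

/-- the exponent in the block -/
noncomputable def uu (A : Finset ℕ) (n : ℕ) : ℝ :=
  (if n ∈ A then 1 / (qb (blk n) : ℝ) else qb (blk n)) / mm n

theorem uu_num_pos (A : Finset ℕ) (n : ℕ) :
    0 < (if n ∈ A then 1 / (qb (blk n) : ℝ) else qb (blk n)) := by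
  have := qb_one (blk n)
  split_ifs
  · positivity
  · linarith

theorem uu_pos (A : Finset ℕ) (n : ℕ) : 0 < uu A n :=
  div_pos (uu_num_pos A n) (by exact_mod_cast mm_pos n)

theorem uu_ge (A : Finset ℕ) (n : ℕ) : 1 / (qb (blk n) : ℝ) / mm n ≤ uu A n := by
  unfold uu
  have := qb_one (blk n)
  refine div_le_div_of_nonneg_right ?_ (by positivity)
  split_ifs
  · exact le_rfl
  · rw [div_le_iff₀ (by linarith)]
    nlinarith

theorem uu_le (A : Finset ℕ) (n : ℕ) : uu A n ≤ (qb (blk n) : ℝ) / mm n := by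
  unfold uu
  have := qb_one (blk n)
  refine div_le_div_of_nonneg_right ?_ (by positivity)
  split_ifs
  · rw [div_le_iff₀ (by linarith)]
    nlinarith
  · exact le_rfl

theorem mm_le (n : ℕ) : mm n ≤ Mb (blk n) ^ Nb (blk n) := by
  unfold mm
  exact Nat.pow_le_pow_right (Mb_pos _) (by omega)

theorem et_le_uu {b n : ℕ} (h : blk n ≤ b) (A : Finset ℕ) : et b ≤ uu A n := by
  refine le_trans ?_ (uu_ge A n)
  have h1 := et_D h
  have h2 := qb_one (blk n)
  have h3 : (0:ℝ) < mm n := by exact_mod_cast mm_pos n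
  have h4 : (mm n : ℝ) ≤ (Mb (blk n) : ℝ) ^ Nb (blk n) := by exact_mod_cast mm_le n
  rw [le_div_iff₀ h3, le_div_iff₀ (by linarith)]
  have h5 : (mm n : ℝ) * qb (blk n) ≤ (qb (blk n) : ℝ) * (Mb (blk n) : ℝ) ^ Nb (blk n) := by
    rw [mul_comm]
    exact mul_le_mul_of_nonneg_left h4 (by linarith)
  have h6 := mul_le_mul_of_nonneg_left h5 (et_pos b).le
  rw [mul_assoc]
  linarith

/-- monotonicity inside a block -/
theorem uu_mono {n : ℕ} (A : Finset ℕ) (h : blk (n + 1) = blk n) : uu A n ≤ uu A (n + 1) := by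
  refine (uu_le A n).trans (le_trans ?_ (uu_ge A (n + 1)))
  rw [h]
  have h1 := off_blk_le n
  have h2 := lt_off_blk (n + 1)
  rw [h, off_succ] at h2
  have h3 : mm n = mm (n + 1) * Mb (blk n) := by
    unfold mm
    rw [h, ← pow_succ]
    congr 1
    omega
  have h4 : (0:ℝ) < mm (n + 1) := by exact_mod_cast mm_pos (n + 1)
  have h5 := qb_one (blk n)
  rw [h3, Nat.cast_mul]
  unfold Mb
  push_cast
  have h6 : (qb (blk n) : ℝ) / (mm (n + 1) * (qb (blk n) : ℝ) ^ 2) =
      1 / (qb (blk n) : ℝ) / mm (n + 1) := by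
    field_simp
  rw [h6]

/-- the radii -/
noncomputable def rad (b : ℕ) (A : Finset ℕ) (n : ℕ) : ℝ :=
  if n < off b then Real.exp (-et b) else if n < off (b + 1) then Real.exp (-uu A n) else 0

theorem rad_nonneg (b : ℕ) (A : Finset ℕ) (n : ℕ) : 0 ≤ rad b A n := by
  unfold rad
  split_ifs <;> positivity

theorem rad_lt (b : ℕ) (A : Finset ℕ) (n : ℕ) : rad b A n < 1 := by
  unfold rad
  split_ifs
  · rw [Real.exp_lt_one_iff]
    linarith [et_pos b]
  · rw [Real.exp_lt_one_iff]
    linarith [uu_pos A n]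
  · norm_num

theorem rad_anti (b : ℕ) (A : Finset ℕ) : Antitone (rad b A) := by
  apply antitone_nat_of_succ_le
  intro n
  unfold rad
  have hob := off_lt b
  by_cases h1 : n + 1 < off b
  · rw [if_pos h1, if_pos (by omega)]
  · rw [if_neg h1]
    by_cases h2 : n + 1 < off (b + 1)
    · rw [if_pos h2]
      by_cases h3 : n < off b
      · rw [if_pos h3, Real.exp_le_exp]
        have h4 : blk (n + 1) = b := blk_eq (by omega) h2
        have := et_le_uu (b := b) (n := n + 1) h4.le A
        linarith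
      · rw [if_neg h3, if_pos (by omega), Real.exp_le_exp]
        have h4 : blk (n + 1) = b := blk_eq (by omega) h2
        have h5 : blk n = b := blk_eq (by omega) (by omega)
        have := uu_mono A (h4.trans h5.symm)
        linarith
    · rw [if_neg h2]
      split_ifs <;> positivity

theorem rad_supp (b : ℕ) (A : Finset ℕ) {n : ℕ} (h : off (b + 1) ≤ n) : rad b A n = 0 := by
  unfold rad
  have := off_lt b
  rw [if_neg (by omega), if_neg (by omega)]

theorem rad_finite (b : ℕ) (A : Finset ℕ) : (Function.support (rad b A)).Finite := by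
  refine (Set.finite_Iio (off (b + 1))).subset fun n hn => ?_
  by_contra h
  exact hn (rad_supp b A (not_lt.1 h))

theorem rad_mono (A : ℕ → Finset ℕ) (n : ℕ) : Monotone fun k => rad k (A k) n := by
  apply monotone_nat_of_le_succ
  intro k
  have h1 := off_lt k
  have h2 := off_lt (k + 1)
  unfold rad
  by_cases h3 : n < off k
  · rw [if_pos h3, if_pos (by omega), Real.exp_le_exp]
    linarith [et_anti (Nat.le_succ k)]
  · rw [if_neg h3]
    by_cases h4 : n < off (k + 1)
    · rw [if_pos h4, if_pos h4, Real.exp_le_exp]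
      have h5 : blk n = k := blk_eq (by omega) h4
      have := et_le_uu (b := k + 1) (n := n) (by omega) (A k)
      linarith
    · rw [if_neg h4]
      split_ifs <;> positivity

theorem rad_one (A : ℕ → Finset ℕ) (n : ℕ) : Tendsto (fun k => rad k (A k) n) atTop (𝓝 1) := by
  have h1 : Tendsto (fun k => Real.exp (-et k)) atTop (𝓝 1) := by
    have := (Real.continuous_exp.tendsto _).comp et_tendsto.neg
    rw [neg_zero, Real.exp_zero] at this
    exact this
  refine h1.congr' ?_
  filter_upwards [eventually_ge_atTop (n + 1)] with k hk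
  unfold rad
  rw [if_pos]
  have := off_strictMono.id_le k
  simp only [id] at this
  omega

open Classical in
/-- the pattern at the point `θ` -/
noncomputable def pat (θ : ℕ → UnitAddCircle) (b : ℕ) : Finset ℕ :=
  (Finset.Ico (off b) (off (b + 1))).filter fun n => 0 < (hr (rb b) (zt (mm n • θ n))).im

theorem one_sub_exp_le {x : ℝ} : 1 - Real.exp (-x) ≤ x := by
  have := Real.add_one_le_exp (-x)
  linarith

/-- change of the radius in the first coordinates -/
theorem Se_diff (b : ℕ) (A : Finset ℕ) (θ : ℕ → UnitAddCircle) :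
    ‖Se b (rad b A) θ - Se b (fun _ => 1) θ‖ ≤ (1 / 2) ^ b := by
  unfold Se
  rw [← Finset.sum_sub_distrib]
  refine (norm_sum_le _ _).trans (le_trans ?_ (et_C b))
  unfold Cc
  rw [Finset.mul_sum]
  refine Finset.sum_le_sum fun n hn => ?_
  have hn' := Finset.mem_range.1 hn
  have h1 : rad b A n = Real.exp (-et b) := by
    unfold rad
    rw [if_pos hn']
  rw [h1]
  unfold cc
  rw [← mul_sub, norm_mul, Complex.norm_real, Real.norm_of_nonneg (dl_pos n).le]
  have hρ : ‖((Real.exp (-et b) : ℝ) : ℂ)‖ ≤ 1 := by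
    rw [Complex.norm_real, Real.norm_of_nonneg (Real.exp_pos _).le]
    exact Real.exp_le_one_iff.2 (by linarith [et_pos b])
  have h2 := hr_lip (rb_pos (blk n)) (rb_lt (blk n))
    (w := (((Real.exp (-et b) : ℝ) : ℂ) * zt (θ n)) ^ mm n)
    (w' := (((1 : ℝ) : ℂ) * zt (θ n)) ^ mm n)
    (pow_norm_le (by rw [norm_mul, zt_norm, mul_one]; exact hρ) _)
    (pow_norm_le (by rw [norm_mul, zt_norm, mul_one]; simp) _)
  have h3 : ‖(((Real.exp (-et b) : ℝ) : ℂ) * zt (θ n)) ^ mm n - (((1 : ℝ) : ℂ) * zt (θ n)) ^ mm n‖ ≤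
      mm n * et b := by
    rw [mul_pow, mul_pow, ← sub_mul, norm_mul, norm_pow (zt (θ n)), zt_norm, one_pow, mul_one]
    rw [Complex.ofReal_one, one_pow, ← Complex.ofReal_pow, ← Real.exp_nat_mul]
    have h4 : ((Real.exp ((mm n : ℝ) * -et b) : ℝ) : ℂ) - 1 =
        ((Real.exp (-(mm n * et b)) - 1 : ℝ) : ℂ) := by
      push_cast
      congr 2
      ring
    rw [h4, Complex.norm_real, Real.norm_eq_abs, abs_sub_comm, abs_of_nonneg]
    · exact one_sub_exp_le
    · have : Real.exp (-(mm n * et b)) ≤ 1 := Real.exp_le_one_iff.2 (by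
        have := et_pos b
        have : 0 ≤ (mm n : ℝ) * et b := by positivity
        linarith)
      linarith
  have h5 : 0 ≤ 2 / (1 - rb (blk n)) ^ 2 := by positivity
  have h6 := mul_le_mul_of_nonneg_left (h2.trans (mul_le_mul_of_nonneg_left h3 h5)) (dl_pos n).le
  refine h6.trans (le_of_eq ?_)
  ring

/-- the block with the pattern -/
theorem bs_diff (b : ℕ) (θ : ℕ → UnitAddCircle) :
    ‖bs b (rad b (pat θ b)) θ - ((sb b / Nb b : ℝ) : ℂ) *
      ∑ n ∈ Finset.Ico (off b) (off (b + 1)), yr (rb b) (zt (mm n • θ n))‖ ≤ sb b := by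
  have hc : (Finset.Ico (off b) (off (b + 1))).card = Nb b := by
    rw [Nat.card_Ico, off_succ]
    omega
  have hN : (0:ℝ) < Nb b := by exact_mod_cast Nb_pos b
  have hd : 0 ≤ sb b / Nb b := div_nonneg (sb_pos b).le hN.le
  unfold bs
  rw [Finset.mul_sum, ← Finset.sum_sub_distrib]
  have key : ∀ n ∈ Finset.Ico (off b) (off (b + 1)), ‖cc n (rad b (pat θ b) n * zt (θ n)) -
      ((sb b / Nb b : ℝ) : ℂ) * yr (rb b) (zt (mm n • θ n))‖ ≤ sb b / Nb b := by
    intro n hn
    have hb := blk_mem hn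
    have hn' := Finset.mem_Ico.1 hn
    have h1 : rad b (pat θ b) n = Real.exp (-uu (pat θ b) n) := by
      unfold rad
      rw [if_neg (by omega), if_pos hn'.2]
    rw [h1]
    unfold cc dl
    rw [hb, ← mul_sub, norm_mul, Complex.norm_real, Real.norm_of_nonneg hd]
    refine mul_le_of_le_one_right hd ?_
    have hm : (0:ℝ) < mm n := by exact_mod_cast mm_pos n
    have h2 : (((Real.exp (-uu (pat θ b) n) : ℝ) : ℂ) * zt (θ n)) ^ mm n =
        ((Real.exp (-(mm n * uu (pat θ b) n)) : ℝ) : ℂ) * zt (mm n • θ n) := by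
      rw [mul_pow, zt_nsmul, ← Complex.ofReal_pow, ← Real.exp_nat_mul]
      congr 3
      ring
    rw [h2]
    have hq := qb_ge b
    have hq1 := qb_one b
    have hnum : (mm n : ℝ) * uu (pat θ b) n =
        if n ∈ pat θ b then 1 / (qb b : ℝ) else qb b := by
      unfold uu
      rw [hb]
      field_simp
    rw [hnum]
    have hwn := zt_norm (mm n • θ n)
    have hmem : n ∈ pat θ b ↔ 0 < (hr (rb b) (zt (mm n • θ n))).im := by
      unfold pat
      rw [Finset.mem_filter]
      exact ⟨fun h => h.2, fun h => ⟨hn, h⟩⟩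
    generalize zt (mm n • θ n) = w at hwn hmem ⊢
    have hc0 : 0 ≤ 2 / (1 - rb b) ^ 2 := by positivity
    unfold yr
    by_cases h : 0 < (hr (rb b) w).im
    · rw [if_pos h, if_pos (hmem.2 h)]
      set ρ : ℝ := Real.exp (-(1 / (qb b : ℝ))) with hρ
      have hρ0 : 0 < ρ := Real.exp_pos _
      have hρ1 : ρ ≤ 1 := Real.exp_le_one_iff.2 (by
        have : 0 ≤ 1 / (qb b : ℝ) := by positivity
        linarith)
      have h3 := hr_lip (rb_pos b) (rb_lt b) (w := (ρ:ℂ) * w) (w' := w)
        (by rw [norm_mul, hwn, mul_one, Complex.norm_real, Real.norm_of_nonneg hρ0.le]; exact hρ1)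
        hwn.le
      refine h3.trans ?_
      have h4 : ‖(ρ:ℂ) * w - w‖ ≤ 1 / qb b := by
        have h5 : (ρ:ℂ) * w - w = ((ρ - 1 : ℝ) : ℂ) * w := by
          push_cast
          ring
        rw [h5, norm_mul, hwn, mul_one, Complex.norm_real, Real.norm_eq_abs, abs_sub_comm,
          abs_of_nonneg (by linarith)]
        exact one_sub_exp_le
      refine (mul_le_mul_of_nonneg_left h4 hc0).trans ?_
      rw [mul_one_div, div_le_one (by linarith)]
      exact hq
    · rw [if_neg h, if_neg fun h' => h (hmem.1 h')]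
      set ρ : ℝ := Real.exp (-(qb b : ℝ)) with hρ
      have hρ0 : 0 < ρ := Real.exp_pos _
      have hρ1 : ρ ≤ 1 := Real.exp_le_one_iff.2 (by linarith)
      have h3 := hr_lip (rb_pos b) (rb_lt b) (w := (ρ:ℂ) * w) (w' := 0)
        (by rw [norm_mul, hwn, mul_one, Complex.norm_real, Real.norm_of_nonneg hρ0.le]; exact hρ1)
        (by rw [norm_zero]; norm_num)
      rw [hr_zero (rb_pos b) (rb_lt b), sub_zero, norm_mul, hwn, mul_one, Complex.norm_real,
        Real.norm_of_nonneg hρ0.le] at h3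
      refine h3.trans ?_
      have h4 : ρ ≤ 1 / qb b := by
        rw [hρ, Real.exp_neg, one_div]
        refine inv_anti₀ (by linarith) ?_
        linarith [Real.add_one_le_exp (qb b : ℝ)]
      refine (mul_le_mul_of_nonneg_left h4 hc0).trans ?_
      rw [mul_one_div, div_le_one (by linarith)]
      exact hq
  refine (norm_sum_le _ _).trans ((Finset.sum_le_sum key).trans (le_of_eq ?_))
  rw [Finset.sum_const, hc, nsmul_eq_mul]
  field_simp

/-- the exponent along the special radii -/
theorem ae_special : ∀ᵐ θ ∂tm,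
    Tendsto (fun b => Se (b + 1) (rad b (pat θ b)) θ) atTop (𝓝 (Hh θ + Complex.I)) := by
  have h1 := law (fun b t => yr (rb b) (zt t)) (fun b => yr_meas (rb_pos b) (rb_lt b))
    (fun b t => yr_norm_le (rb_pos b) (rb_lt b) (zt_norm t).le)
  filter_upwards [h1, ae_summable_bs] with θ hθ hs
  have h2 : Tendsto (fun b => Se b (fun _ => 1) θ) atTop (𝓝 (Hh θ)) := by
    simp_rw [Se_eq]
    exact hs.hasSum.tendsto_sum_nat
  have h3 : Tendsto (fun b => Se b (rad b (pat θ b)) θ) atTop (𝓝 (Hh θ)) := by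
    have h4 : Tendsto (fun b => Se b (rad b (pat θ b)) θ - Se b (fun _ => 1) θ) atTop (𝓝 0) :=
      squeeze_zero_norm (fun b => Se_diff b _ θ)
        (tendsto_pow_atTop_nhds_zero_of_lt_one (by norm_num) (by norm_num))
    have h5 := h4.add h2
    simpa using h5
  have h6 : Tendsto (fun b => (sb b : ℂ) * ∫ t, yr (rb b) (zt t) ∂haar) atTop (𝓝 Complex.I) := by
    have h7 : Tendsto (fun b => (sb b : ℂ) * (∫ t, yr (rb b) (zt t) ∂haar) - Complex.I) atTop (𝓝 0) := by
      refine squeeze_zero_norm (a := fun b => sb b * 2) (fun b => ?_) ?_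
      · have h8 := yr_re (rb_pos b) (rb_lt b)
        have h9 := yr_im (rb_pos b) (rb_lt b)
        generalize (∫ t, yr (rb b) (zt t) ∂haar) = v at h8 h9
        have h10 : (sb b : ℂ) * v - Complex.I = ((sb b * v.re : ℝ) : ℂ) := by
          apply Complex.ext
          · simp
          · simp [h9, sb_mul]
        rw [h10, Complex.norm_real, Real.norm_eq_abs, abs_mul, abs_of_nonneg (sb_pos b).le]
        exact mul_le_mul_of_nonneg_left h8 (sb_pos b).le
      · simpa using sb_tendsto.mul_const 2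
    have := h7.add_const Complex.I
    simpa using this
  have h11 : Tendsto (fun b => bs b (rad b (pat θ b)) θ) atTop (𝓝 Complex.I) := by
    have h12 : Tendsto (fun b => bs b (rad b (pat θ b)) θ - ((sb b / Nb b : ℝ) : ℂ) *
      ∑ n ∈ Finset.Ico (off b) (off (b + 1)), yr (rb b) (zt (mm n • θ n))) atTop (𝓝 0) :=
      squeeze_zero_norm (fun b => bs_diff b θ) sb_tendsto
    have h13 := (h12.add hθ.tendsto_atTop_zero).add h6
    rw [add_zero, zero_add] at h13
    refine h13.congr fun b => ?_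
    have h14 := sum_split (fun b t => yr (rb b) (zt t)) b θ
    rw [h14]
    ring
  have h15 := h3.add h11
  refine h15.congr fun b => ?_
  rw [Se_succ]

theorem ae_all_patterns : ∀ᵐ θ ∂tm, ∀ b : ℕ, ∀ A : Finset ℕ,
    poissonExt ff (rad b A) θ = Complex.exp (-(Se (b + 1) (rad b A) θ + tl b)) := by
  rw [ae_all_iff]
  intro b
  rw [ae_all_iff]
  intro A
  exact poissonExt_ff (rad_nonneg b A) (rad_lt b A) fun n hn => rad_supp b A hn

/-- along the special radii the values tend to `e^{-i} f(θ)` -/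
theorem ae_limit : ∀ᵐ θ ∂tm,
    Tendsto (fun b => poissonExt ff (rad b (pat θ b)) θ) atTop (𝓝 (Complex.exp (-Complex.I) * ff θ)) := by
  filter_upwards [ae_all_patterns, ae_special] with θ h1 h2
  simp_rw [h1]
  have h3 : Tendsto (fun b => -(Se (b + 1) (rad b (pat θ b)) θ + (tl b : ℂ))) atTop
      (𝓝 (-(Hh θ + Complex.I + ((0:ℝ) : ℂ)))) :=
    (h2.add ((Complex.continuous_ofReal.tendsto _).comp tl_tendsto)).neg
  have h4 := (Complex.continuous_exp.tendsto _).comp h3
  have h5 : Complex.exp (-(Hh θ + Complex.I + ((0:ℝ) : ℂ))) = Complex.exp (-Complex.I) * ff θ := by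
    unfold ff
    rw [← Complex.exp_add]
    congr 1
    push_cast
    ring
  rw [h5] at h4
  exact h4

theorem exp_ne (θ : ℕ → UnitAddCircle) : Complex.exp (-Complex.I) * ff θ ≠ ff θ := by
  intro h
  have h1 : Complex.exp (-Complex.I) = 1 := mul_right_cancel₀ (ff_ne θ) (by rw [h, one_mul])
  have h2 := congrArg Complex.re h1
  rw [Complex.exp_re, Complex.neg_re, Complex.I_re, Complex.neg_im, Complex.I_im] at h2
  simp only [neg_zero, Real.exp_zero, one_mul, Complex.one_re, Real.cos_neg] at h2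
  have h3 : Real.cos 1 < 1 := by
    have := Real.cos_lt_cos_of_nonneg_of_le_pi (x := 0) (y := 1) le_rfl
      (by linarith [Real.pi_gt_three]) one_pos
    rwa [Real.cos_zero] at this
  linarith

theorem main_dep : IsHInf ff ∧ ∀ᵐ θ ∂tm, ∃ R : ℕ → ℕ → ℝ,
    (∀ k n, 0 ≤ R k n ∧ R k n < 1) ∧ (∀ k, (Function.support (R k)).Finite) ∧
    (∀ n, Monotone fun k => R k n) ∧ (∀ n, Tendsto (fun k => R k n) atTop (𝓝 1)) ∧
    (∀ k, Antitone (R k)) ∧
    Tendsto (fun k => poissonExt ff (R k) θ) atTop (𝓝 (Complex.exp (-Complex.I) * ff θ)) := by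
  refine ⟨ff_hinf, ?_⟩
  filter_upwards [ae_limit] with θ hθ
  exact ⟨fun k => rad k (pat θ k), fun k n => ⟨rad_nonneg _ _ _, rad_lt _ _ _⟩,
    fun k => rad_finite _ _, rad_mono _, rad_one _, fun k => rad_anti _ _, hθ⟩

/-- the patterns -/
abbrev PT : Type := Σ b : ℕ, {A : Finset ℕ // A ⊆ Finset.Ico (off b) (off (b + 1))}

instance (b : ℕ) : Finite {A : Finset ℕ // A ⊆ Finset.Ico (off b) (off (b + 1))} := by
  have : {A : Finset ℕ | A ⊆ Finset.Ico (off b) (off (b + 1))}.Finite := by
    refine ((Finset.Ico (off b) (off (b + 1))).powerset.finite_toSet).subset fun A hA => ?_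
    exact Finset.mem_coe.2 (Finset.mem_powerset.2 hA)
  exact this.to_subtype

theorem pat_sub (θ : ℕ → UnitAddCircle) (b : ℕ) : pat θ b ⊆ Finset.Ico (off b) (off (b + 1)) :=
  Finset.filter_subset _ _

instance : Infinite PT := by
  refine Infinite.of_injective (fun b : ℕ => (⟨b, ∅, Finset.empty_subset _⟩ : PT)) ?_
  intro a b h
  exact congrArg Sigma.fst h

theorem fst_tendsto : Tendsto (fun p : PT => p.1) cofinite atTop := by
  rw [← Nat.cofinite_eq_atTop]
  refine Tendsto.cofinite_of_finite_preimage_singleton fun b => ?_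
  have h1 : ((fun p : PT => p.1) ⁻¹' {b}) = Set.range fun A : {A : Finset ℕ // A ⊆
      Finset.Ico (off b) (off (b + 1))} => (⟨b, A⟩ : PT) := by
    ext ⟨c, A⟩
    simp only [mem_preimage, mem_singleton_iff, mem_range]
    constructor
    · rintro rfl
      exact ⟨A, rfl⟩
    · rintro ⟨A', hA'⟩
      exact (congrArg Sigma.fst hA').symm
  rw [h1]
  exact Set.finite_range _

theorem main_indep : ∃ R : ℕ → ℕ → ℝ,
    (∀ k n, 0 ≤ R k n ∧ R k n < 1) ∧ (∀ k, (Function.support (R k)).Finite) ∧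
    (∀ n, Tendsto (fun k => R k n) atTop (𝓝 1)) ∧ (∀ k, Antitone (R k)) ∧
    ∀ᵐ θ ∂tm, ¬ Tendsto (fun k => poissonExt ff (R k) θ) atTop (𝓝 (ff θ)) := by
  obtain ⟨e⟩ : Nonempty (ℕ ≃ PT) := nonempty_equiv_of_countable
  refine ⟨fun k => rad (e k).1 (e k).2.1, fun k n => ⟨rad_nonneg _ _ _, rad_lt _ _ _⟩,
    fun k => rad_finite _ _, fun n => ?_, fun k => rad_anti _ _, ?_⟩
  · have h1 : Tendsto (fun k => (e k).1) atTop atTop := by
      rw [← Nat.cofinite_eq_atTop]
      have := fst_tendsto.comp e.injective.tendsto_cofinite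
      rwa [← Nat.cofinite_eq_atTop] at this
    have h2 : Tendsto (fun k => Real.exp (-et k)) atTop (𝓝 1) := by
      have := (Real.continuous_exp.tendsto _).comp et_tendsto.neg
      rw [neg_zero, Real.exp_zero] at this
      exact this
    refine (h2.comp h1).congr' ?_
    filter_upwards [h1.eventually_ge_atTop (n + 1)] with k hk
    simp only [Function.comp]
    unfold rad
    rw [if_pos]
    have := off_strictMono.id_le (e k).1
    simp only [id] at this
    omega
  · filter_upwards [ae_limit] with θ hθ hcon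
    have h1 : Tendsto (fun p : PT => poissonExt ff (rad p.1 p.2.1) θ) cofinite (𝓝 (ff θ)) := by
      have h2 := hcon.comp (by
        rw [← Nat.cofinite_eq_atTop]
        exact e.symm.injective.tendsto_cofinite : Tendsto e.symm cofinite atTop)
      refine h2.congr fun p => ?_
      show poissonExt ff (rad (e (e.symm p)).1 (e (e.symm p)).2.1) θ = _
      rw [Equiv.apply_symm_apply]
    have h3 : Function.Injective fun b : ℕ => (⟨b, pat θ b, pat_sub θ b⟩ : PT) := by
      intro a b h
      exact congrArg Sigma.fst h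
    have h4 := h1.comp h3.tendsto_cofinite
    rw [Nat.cofinite_eq_atTop] at h4
    exact exp_ne θ (tendsto_nhds_unique hθ h4)

end Pool.Agent.R243.RT
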