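import Pool.Agent.R243.RT.Two

set_option autoImplicit false

/-!
# The functions `h_r(w) = (1 + r w)/(1 - r w)`
-/

namespace Pool.Agent.R243.RT

open Filter Topology MeasureTheory Set Metric ProbabilityTheory
open scoped ENNReal NNReal

/-- the half-plane map -/
noncomputable def hr (r : ℝ) (w : ℂ) : ℂ := (1 + r * w) / (1 - r * w)

section
variable {r : ℝ} (h0 : 0 < r) (h1 : r < 1)
include h0 h1

theorem den_re {w : ℂ} (hw : ‖w‖ ≤ 1) : 1 - r ≤ (1 - r * w).re := by
  have h2 : w.re ≤ 1 := (Complex.re_le_norm w).trans hw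
  simp only [Complex.sub_re, Complex.one_re, Complex.mul_re, Complex.ofReal_re, Complex.ofReal_im,
    zero_mul, sub_zero]
  nlinarith

theorem den_norm {w : ℂ} (hw : ‖w‖ ≤ 1) : 1 - r ≤ ‖1 - r * w‖ :=
  (den_re h0 h1 hw).trans (Complex.re_le_norm _)

theorem den_ne {w : ℂ} (hw : ‖w‖ ≤ 1) : (1 - r * w : ℂ) ≠ 0 := by
  rw [← norm_pos_iff]
  linarith [den_norm h0 h1 hw]

theorem hr_norm_le {w : ℂ} (hw : ‖w‖ ≤ 1) : ‖hr r w‖ ≤ 2 / (1 - r) := by
  have h2 := den_norm h0 h1 hw
  have h3 : ‖1 + (r:ℂ) * w‖ ≤ 2 := by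
    refine (norm_add_le _ _).trans ?_
    rw [norm_one, norm_mul, Complex.norm_real, Real.norm_of_nonneg h0.le]
    nlinarith [norm_nonneg w]
  unfold hr
  rw [norm_div]
  exact div_le_div₀ (by norm_num) h3 (by linarith) h2

theorem hr_re {w : ℂ} (hw : ‖w‖ ≤ 1) : 0 ≤ (hr r w).re := by
  have h2 := den_ne h0 h1 hw
  unfold hr
  have h3 : ((1 + (r:ℂ) * w) / (1 - r * w)) = ((1 + (r:ℂ) * w) * (starRingEnd ℂ) (1 - r * w)) *
      ((Complex.normSq (1 - r * w))⁻¹ : ℝ) := by
    rw [div_eq_mul_inv, Complex.inv_def]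
    ring
  rw [h3, Complex.re_mul_ofReal]
  refine mul_nonneg ?_ (inv_nonneg.2 (Complex.normSq_nonneg _))
  have h4 : w.re ^ 2 + w.im ^ 2 ≤ 1 := by
    have := Complex.sq_norm w
    rw [Complex.normSq_apply] at this
    nlinarith [norm_nonneg w]
  have h5 : r ^ 2 * (w.re ^ 2 + w.im ^ 2) ≤ 1 := by
    have h6 : r ^ 2 ≤ 1 := by nlinarith
    have h7 : 0 ≤ w.re ^ 2 + w.im ^ 2 := by positivity
    nlinarith
  simp
  nlinarith

theorem hr_lip {w w' : ℂ} (hw : ‖w‖ ≤ 1) (hw' : ‖w'‖ ≤ 1) :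
    ‖hr r w - hr r w'‖ ≤ 2 / (1 - r) ^ 2 * ‖w - w'‖ := by
  have h2 := den_norm h0 h1 hw
  have h3 := den_norm h0 h1 hw'
  have h4 : hr r w - hr r w' = 2 * r * (w - w') / ((1 - r * w) * (1 - r * w')) := by
    have a := den_ne h0 h1 hw
    have b := den_ne h0 h1 hw'
    unfold hr
    field_simp
    ring
  rw [h4, norm_div, norm_mul, norm_mul, norm_mul, Complex.norm_real, Real.norm_of_nonneg h0.le,
    Complex.norm_two]
  have h5 : 0 < 1 - r := by linarith
  have h6 : (1 - r) ^ 2 ≤ ‖1 - (r:ℂ) * w‖ * ‖1 - (r:ℂ) * w'‖ := by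
    rw [sq]
    exact mul_le_mul h2 h3 h5.le (norm_nonneg _)
  rw [div_mul_eq_mul_div]
  refine div_le_div₀ (by positivity) ?_ (by positivity) h6
  nlinarith [norm_nonneg (w - w')]

theorem hr_zero : hr r 0 = 1 := by
  unfold hr
  simp

theorem hr_cont : ContinuousOn (hr r) (closedBall 0 1) := by
  unfold hr
  refine ContinuousOn.div (by fun_prop) (by fun_prop) fun w hw => ?_
  exact den_ne h0 h1 (by simpa using hw)

theorem hr_diff : DiffContOnCl ℂ (hr r) (ball 0 1) := by
  refine ⟨?_, ?_⟩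
  · intro w hw
    have hw' : ‖w‖ ≤ 1 := by
      have := mem_ball_zero_iff.1 hw
      exact this.le
    have ha : DifferentiableAt ℂ (fun w : ℂ => 1 + (r:ℂ) * w) w := by fun_prop
    have hb : DifferentiableAt ℂ (fun w : ℂ => 1 - (r:ℂ) * w) w := by fun_prop
    exact (ha.div hb (den_ne h0 h1 hw')).differentiableWithinAt
  · rw [closure_ball (0:ℂ) one_ne_zero]
    exact hr_cont h0 h1

theorem hr_zt_cont : Continuous fun t => hr r (zt t) := by
  unfold hr
  have := zt_cont
  refine Continuous.div (by fun_prop) (by fun_prop) fun t => ?_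
  exact den_ne h0 h1 (zt_norm t).le

theorem hr_mean : ∫ t, hr r (zt t) ∂haar = 1 := by
  rw [mean_value (hr_diff h0 h1), hr_zero h0 h1]

end

/-- the expectation of the positive part of the imaginary part -/
noncomputable def Kr (r : ℝ) : ℝ := ∫ t, max (hr r (zt t)).im 0 ∂haar

/-- imaginary part on the circle -/
theorem hr_im_circle {r : ℝ} (h0 : 0 < r) (h1 : r < 1) (θ : ℝ) :
    (hr r (circleMap 0 1 θ)).im = 2 * r * Real.sin θ / (1 - 2 * r * Real.cos θ + r ^ 2) := by
  have hc : circleMap 0 1 θ = Real.cos θ + Real.sin θ * Complex.I := by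
    rw [circleMap_zero, Complex.exp_mul_I]
    simp
  have hcs := Real.sin_sq_add_cos_sq θ
  have hn : ‖(circleMap 0 1 θ)‖ ≤ 1 := by
    rw [circleMap_zero]
    simp [Complex.norm_exp_ofReal_mul_I]
  have h2 := den_ne h0 h1 hn
  unfold hr
  have h3 : ((1 + (r:ℂ) * circleMap 0 1 θ) / (1 - r * circleMap 0 1 θ)) =
      ((1 + (r:ℂ) * circleMap 0 1 θ) * (starRingEnd ℂ) (1 - r * circleMap 0 1 θ)) *
      ((Complex.normSq (1 - r * circleMap 0 1 θ))⁻¹ : ℝ) := by
    rw [div_eq_mul_inv, Complex.inv_def]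
    ring
  rw [h3, Complex.im_mul_ofReal, div_eq_mul_inv]
  generalize Real.cos θ = c at hc hcs ⊢
  generalize Real.sin θ = s at hc hcs ⊢
  have h4 : Complex.normSq (1 - r * circleMap 0 1 θ) = 1 - 2 * r * c + r ^ 2 := by
    rw [hc, Complex.normSq_apply]
    have e1 : (1 - (r:ℂ) * (c + s * Complex.I)).re = 1 - r * c := by simp
    have e2 : (1 - (r:ℂ) * (c + s * Complex.I)).im = - (r * s) := by simp
    rw [e1, e2]
    have : r ^ 2 * (s ^ 2 + c ^ 2) = r ^ 2 := by rw [hcs, mul_one]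
    nlinarith
  rw [h4]
  congr 1
  rw [hc, Complex.mul_im, Complex.conj_re, Complex.conj_im]
  have e1 : (1 - (r:ℂ) * (c + s * Complex.I)).re = 1 - r * c := by simp
  have e2 : (1 - (r:ℂ) * (c + s * Complex.I)).im = - (r * s) := by simp
  have e3 : (1 + (r:ℂ) * (c + s * Complex.I)).re = 1 + r * c := by simp
  have e4 : (1 + (r:ℂ) * (c + s * Complex.I)).im = (r * s) := by simp
  rw [e1, e2, e3, e4]
  ring

theorem den_pos {r : ℝ} (h0 : 0 < r) (h1 : r < 1) (θ : ℝ) : 0 < 1 - 2 * r * Real.cos θ + r ^ 2 := by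
  nlinarith [Real.cos_le_one θ]

theorem Kr_ge {r : ℝ} (h0 : 0 < r) (h1 : r < 1) : 1 / Real.pi * Real.log (1 / (1 - r)) ≤ Kr r := by
  unfold Kr
  rw [integral_zt (fun w => max (hr r w).im 0), Real.circleAverage_def]
  set g : ℝ → ℝ := fun θ => 2 * r * Real.sin θ / (1 - 2 * r * Real.cos θ + r ^ 2) with hg
  have hgc : Continuous g := by
    refine Continuous.div (by fun_prop) (by fun_prop) fun θ => (den_pos h0 h1 θ).ne'
  have h2 : ∀ θ : ℝ, max (hr r (circleMap 0 1 θ)).im 0 = max (g θ) 0 := by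
    intro θ
    rw [hr_im_circle h0 h1]
  simp_rw [h2]
  have hpi := Real.pi_pos
  have hmc : Continuous fun θ => max (g θ) 0 := hgc.max continuous_const
  have h3 : ∫ θ in (0:ℝ)..(2 * Real.pi), max (g θ) 0 =
      (∫ θ in (0:ℝ)..Real.pi, max (g θ) 0) + ∫ θ in Real.pi..(2 * Real.pi), max (g θ) 0 :=
    (intervalIntegral.integral_add_adjacent_intervals (hmc.intervalIntegrable _ _)
      (hmc.intervalIntegrable _ _)).symm
  have h4 : 0 ≤ ∫ θ in Real.pi..(2 * Real.pi), max (g θ) 0 :=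
    intervalIntegral.integral_nonneg (by linarith) fun θ _ => le_max_right _ _
  have h5 : ∫ θ in (0:ℝ)..Real.pi, g θ ≤ ∫ θ in (0:ℝ)..Real.pi, max (g θ) 0 :=
    intervalIntegral.integral_mono_on hpi.le (hgc.intervalIntegrable _ _)
      (hmc.intervalIntegrable _ _) fun θ _ => le_max_left _ _
  have h6 : ∫ θ in (0:ℝ)..Real.pi, g θ = Real.log (1 - 2 * r * Real.cos Real.pi + r ^ 2) -
      Real.log (1 - 2 * r * Real.cos 0 + r ^ 2) := by
    rw [intervalIntegral.integral_eq_sub_of_hasDerivAt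
      (f := fun θ => Real.log (1 - 2 * r * Real.cos θ + r ^ 2))]
    · intro θ _
      have ha : HasDerivAt (fun θ => 1 - 2 * r * Real.cos θ + r ^ 2) (2 * r * Real.sin θ) θ := by
        have := (((Real.hasDerivAt_cos θ).const_mul (2 * r)).const_sub 1).add_const (r ^ 2)
        exact this.congr_deriv (by ring)
      exact ha.log (den_pos h0 h1 θ).ne'
    · exact hgc.intervalIntegrable _ _
  have h7 : Real.log (1 - 2 * r * Real.cos Real.pi + r ^ 2) -
      Real.log (1 - 2 * r * Real.cos 0 + r ^ 2) = 2 * (Real.log (1 + r) - Real.log (1 - r)) := by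
    rw [Real.cos_pi, Real.cos_zero]
    have ha : (1 - 2 * r * -1 + r ^ 2) = (1 + r) ^ 2 := by ring
    have hb : (1 - 2 * r * 1 + r ^ 2) = (1 - r) ^ 2 := by ring
    rw [ha, hb, Real.log_pow, Real.log_pow]
    push_cast
    ring
  have h8 : 0 ≤ Real.log (1 + r) := Real.log_nonneg (by linarith)
  have h9 : Real.log (1 / (1 - r)) = - Real.log (1 - r) := by
    rw [one_div, Real.log_inv]
  rw [h9, smul_eq_mul, h3]
  have h10 : 2 * (- Real.log (1 - r)) ≤
      (∫ θ in (0:ℝ)..Real.pi, max (g θ) 0) + ∫ θ in Real.pi..(2 * Real.pi), max (g θ) 0 := by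
    linarith
  have h11 : 1 / Real.pi * -Real.log (1 - r) = (2 * Real.pi)⁻¹ * (2 * (- Real.log (1 - r))) := by
    field_simp
  rw [h11]
  exact mul_le_mul_of_nonneg_left h10 (by positivity)

open Classical in
/-- the function `y` -/
noncomputable def yr (r : ℝ) (w : ℂ) : ℂ := if 0 < (hr r w).im then hr r w else 1

section
variable {r : ℝ} (h0 : 0 < r) (h1 : r < 1)
include h0 h1

theorem yr_norm_le {w : ℂ} (hw : ‖w‖ ≤ 1) : ‖yr r w‖ ≤ 2 / (1 - r) := by
  unfold yr
  split_ifs
  · exact hr_norm_le h0 h1 hw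
  · rw [norm_one, le_div_iff₀ (by linarith)]
    linarith

theorem yr_meas : Measurable fun t => yr r (zt t) := by
  unfold yr
  refine Measurable.ite ?_ (hr_zt_cont h0 h1).measurable measurable_const
  exact measurableSet_lt measurable_const (Complex.measurable_im.comp (hr_zt_cont h0 h1).measurable)

theorem yr_int : Integrable (fun t => yr r (zt t)) haar :=
  Integrable.of_bound (yr_meas h0 h1).aestronglyMeasurable (2 / (1 - r))
    (Eventually.of_forall fun t => yr_norm_le h0 h1 (zt_norm t).le)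

theorem yr_im : (∫ t, yr r (zt t) ∂haar).im = Kr r := by
  have h2 : (∫ t, yr r (zt t) ∂haar).im = ∫ t, (yr r (zt t)).im ∂haar :=
    (integral_im (yr_int h0 h1)).symm
  rw [h2]
  unfold Kr
  refine integral_congr_ae (Eventually.of_forall fun t => ?_)
  beta_reduce
  unfold yr
  split_ifs with h
  · rw [max_eq_left h.le]
  · rw [max_eq_right (not_lt.1 h), Complex.one_im]

theorem yr_re : |(∫ t, yr r (zt t) ∂haar).re| ≤ 2 := by
  have h2 : (∫ t, yr r (zt t) ∂haar).re = ∫ t, (yr r (zt t)).re ∂haar :=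
    (integral_re (yr_int h0 h1)).symm
  have h3 : (∫ t, hr r (zt t) ∂haar).re = ∫ t, (hr r (zt t)).re ∂haar :=
    (integral_re (integrable_cont (hr_zt_cont h0 h1) _)).symm
  rw [hr_mean h0 h1, Complex.one_re] at h3
  rw [h2]
  have hnn : ∀ t, 0 ≤ (yr r (zt t)).re := by
    intro t
    unfold yr
    split_ifs
    · exact hr_re h0 h1 (zt_norm t).le
    · simp
  rw [abs_of_nonneg (integral_nonneg hnn)]
  have hri : Integrable (fun t => (hr r (zt t)).re) haar :=
    (integrable_cont (hr_zt_cont h0 h1) _).re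
  have h4 : ∫ t, (yr r (zt t)).re ∂haar ≤ ∫ t, ((hr r (zt t)).re + 1) ∂haar := by
    apply integral_mono_of_nonneg
    · exact Eventually.of_forall hnn
    · exact hri.add (integrable_const _)
    · refine Eventually.of_forall fun t => ?_
      beta_reduce
      have := hr_re h0 h1 (zt_norm t).le
      unfold yr
      split_ifs
      · linarith
      · simp only [Complex.one_re]
        linarith
  refine h4.trans ?_
  rw [integral_add hri (integrable_const _), ← h3]
  simp
  norm_num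

end

end Pool.Agent.R243.RT
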