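import Pool.Agent.R243.RT.One

set_option autoImplicit false

/-!
# The infinite torus: products, translations, a strong law for blocks
-/

namespace Pool.Agent.R243.RT

open Filter Topology MeasureTheory Set Metric ProbabilityTheory
open scoped ENNReal NNReal

/-- Haar probability measure of the infinite torus -/
noncomputable abbrev tm : Measure (ℕ → UnitAddCircle) := Measure.infinitePi (fun _ => haar)

theorem integral_prod_inf {ν : ℕ → Measure UnitAddCircle} [∀ n, IsProbabilityMeasure (ν n)]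
    (s : Finset ℕ) (g : ℕ → UnitAddCircle → ℂ) (hg : ∀ n, Measurable (g n)) :
    ∫ t, ∏ i ∈ s, g i (t i) ∂Measure.infinitePi ν = ∏ i ∈ s, ∫ x, g i x ∂ν i := by
  have h1 : ∀ t : ℕ → UnitAddCircle, ∏ i ∈ s, g i (t i) =
      (fun y : (i : s) → UnitAddCircle => ∏ i : s, g i (y i)) (s.restrict t) := by
    intro t
    simp only [Finset.restrict_def]
    rw [← Finset.prod_coe_sort]
  simp_rw [h1]
  rw [integral_restrict_infinitePi (μ := ν) (s := s)
    (f := fun y : (i : s) → UnitAddCircle => ∏ i : s, g i (y i))]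
  · rw [integral_fintype_prod_eq_prod (fun (i : s) (x : UnitAddCircle) => g i x)]
    exact Finset.prod_coe_sort s (fun i => ∫ x, g i x ∂ν i)
  · apply Measurable.aestronglyMeasurable
    fun_prop

theorem map_sub (t : ℕ → UnitAddCircle) : Measure.map (fun θ : ℕ → UnitAddCircle => θ - t) tm = tm := by
  have h1 : (fun θ : ℕ → UnitAddCircle => θ - t) = fun θ i => (fun x => x - t i) (θ i) := rfl
  rw [h1]
  have h2 := Measure.infinitePi_map_pi (μ := fun _ : ℕ => haar) (f := fun i (x : UnitAddCircle) => x - t i)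
    (fun i => by fun_prop)
  refine h2.trans ?_
  congr 1
  ext1 i
  exact map_sub_right_eq_self haar (t i)

theorem ae_sub {P : Measure (ℕ → UnitAddCircle)} [IsProbabilityMeasure P]
    {p : (ℕ → UnitAddCircle) → Prop} (hp : ∀ᵐ θ ∂tm, p θ) : ∀ᵐ θ ∂tm, ∀ᵐ t ∂P, p (θ - t) := by
  have hm : Measurable fun x : (ℕ → UnitAddCircle) × (ℕ → UnitAddCircle) => x.1 - x.2 := by
    fun_prop
  have hq : Measure.QuasiMeasurePreserving
      (fun x : (ℕ → UnitAddCircle) × (ℕ → UnitAddCircle) => x.1 - x.2) (tm.prod P) tm := by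
    refine ⟨hm, ?_⟩
    apply Measure.AbsolutelyContinuous.mk
    intro s hs h0
    rw [Measure.map_apply hm hs, Measure.prod_apply_symm (hm hs)]
    have h2 : ∀ t : ℕ → UnitAddCircle, tm ((fun θ => (θ, t)) ⁻¹'
        ((fun x : (ℕ → UnitAddCircle) × (ℕ → UnitAddCircle) => x.1 - x.2) ⁻¹' s)) = 0 := by
      intro t
      have h3 := map_sub t
      rw [← h3, Measure.map_apply (by fun_prop) hs] at h0
      exact h0
    simp only [h2, lintegral_zero]
  exact Measure.ae_ae_of_ae_prod (hq.ae hp)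

/-- L² bound for the sum of independent centred coordinates -/
theorem second_moment {x : UnitAddCircle → ℝ} (hx : Measurable x) {C : ℝ} (hC : ∀ t, |x t| ≤ C)
    (S : Finset ℕ) {m : ℕ → ℕ} (hm : ∀ n, m n ≠ 0) :
    ∫ θ, (∑ n ∈ S, (x (m n • θ n) - ∫ t, x t ∂haar)) ^ 2 ∂tm ≤ S.card * C ^ 2 := by
  have hC0 : 0 ≤ C := (abs_nonneg _).trans (hC 0)
  set X : ℕ → (ℕ → UnitAddCircle) → ℝ := fun n θ => x (m n • θ n) with hX
  have hXm : ∀ n, Measurable (X n) := fun n => by
    have : Measurable fun θ : ℕ → UnitAddCircle => m n • θ n := by fun_prop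
    exact hx.comp this
  have hmem : ∀ n, MemLp (X n) 2 tm := fun n =>
    MemLp.of_bound (hXm n).aestronglyMeasurable C (Eventually.of_forall fun θ => by
      rw [Real.norm_eq_abs]
      exact hC _)
  have hind : iIndepFun X tm := by
    have hy : ∀ n, Measurable (fun t : UnitAddCircle => x (m n • t)) := fun n =>
      hx.comp (by fun_prop : Measurable fun t : UnitAddCircle => m n • t)
    exact iIndepFun_infinitePi (P := fun _ => haar) (X := fun n t => x (m n • t)) hy
  have hmean : ∀ n, ∫ θ, X n θ ∂tm = ∫ t, x t ∂haar := by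
    intro n
    have h1 := (measurePreserving_eval_infinitePi (fun _ : ℕ => haar) n)
    have h2 : ∫ θ, X n θ ∂tm = ∫ t, x (m n • t) ∂haar := by
      have h3 : ∫ t, x (m n • t) ∂(Measure.map (Function.eval n) tm) = ∫ θ, X n θ ∂tm := by
        apply integral_map h1.measurable.aemeasurable
        exact ((hx.comp (by fun_prop : Measurable fun t : UnitAddCircle => m n • t))).aestronglyMeasurable
      rw [h1.map_eq] at h3
      exact h3.symm
    rw [h2]
    exact integral_pow hx.aestronglyMeasurable (hm n)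
  have hvar : Var[fun θ => ∑ n ∈ S, X n θ; tm] = ∑ n ∈ S, Var[X n; tm] := by
    have := IndepFun.variance_sum (X := X) (s := S) (μ := tm) (fun n _ => hmem n)
      (fun i _ j _ hij => hind.indepFun hij)
    rw [← this]
    congr 1
    ext θ
    simp
  have h1 : ∫ θ, (∑ n ∈ S, (x (m n • θ n) - ∫ t, x t ∂haar)) ^ 2 ∂tm =
      Var[fun θ => ∑ n ∈ S, X n θ; tm] := by
    rw [variance_eq_integral]
    · refine integral_congr_ae (Eventually.of_forall fun θ => ?_)
      beta_reduce
      rw [integral_finsetSum S (fun n _ => (hmem n).integrable one_le_two)]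
      simp_rw [hmean]
      rw [← Finset.sum_sub_distrib]
    · exact (Finset.measurable_fun_sum _ fun n _ => hXm n).aemeasurable
  rw [h1, hvar]
  calc ∑ n ∈ S, Var[X n; tm] ≤ ∑ n ∈ S, C ^ 2 := by
        refine Finset.sum_le_sum fun n _ => ?_
        have h2 := variance_le_expectation_sq (X := X n) (μ := tm) (hXm n).aestronglyMeasurable
        refine h2.trans ?_
        have h3 : ∫ θ, (X n ^ 2) θ ∂tm ≤ ∫ θ, C ^ 2 ∂tm := by
          apply integral_mono_of_nonneg
          · exact Eventually.of_forall fun θ => by simp only [Pi.pow_apply, Pi.zero_apply]; positivity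
          · exact integrable_const _
          · refine Eventually.of_forall fun θ => ?_
            simp only [Pi.pow_apply]
            rw [← sq_abs]
            exact pow_le_pow_left₀ (abs_nonneg _) (hC _) 2
        refine h3.trans ?_
        simp
    _ = S.card * C ^ 2 := by rw [Finset.sum_const, nsmul_eq_mul]

/-- strong law for blocks, real version -/
theorem ae_summable_real {x : ℕ → UnitAddCircle → ℝ} (hx : ∀ b, Measurable (x b)) {C : ℕ → ℝ}
    (hC : ∀ b t, |x b t| ≤ C b) (S : ℕ → Finset ℕ) {m : ℕ → ℕ} (hm : ∀ n, m n ≠ 0) (δ : ℕ → ℝ)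
    (hδ : ∀ b, δ b ^ 2 * (S b).card * C b ^ 2 ≤ (1 / 2) ^ b * (1 / 2) ^ b) :
    ∀ᵐ θ ∂tm, Summable fun b => δ b * ∑ n ∈ S b, (x b (m n • θ n) - ∫ t, x b t ∂haar) := by
  set Y : ℕ → (ℕ → UnitAddCircle) → ℝ :=
    fun b θ => δ b * ∑ n ∈ S b, (x b (m n • θ n) - ∫ t, x b t ∂haar) with hY
  have hYm : ∀ b, Measurable (Y b) := by
    intro b
    refine Measurable.const_mul (Finset.measurable_fun_sum _ fun n _ => ?_) _
    exact ((hx b).comp (by fun_prop : Measurable fun θ : ℕ → UnitAddCircle => m n • θ n)).sub_const _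
  have hb2 : ∀ b θ, |Y b θ| ≤ |δ b| * ((S b).card * (2 * C b)) := by
    intro b θ
    rw [hY]
    simp only
    rw [abs_mul]
    refine mul_le_mul_of_nonneg_left ?_ (abs_nonneg _)
    refine (Finset.abs_sum_le_sum_abs _ _).trans ?_
    rw [← nsmul_eq_mul, ← Finset.sum_const]
    refine Finset.sum_le_sum fun n _ => ?_
    have h1 : |∫ t, x b t ∂haar| ≤ C b := by
      have := norm_integral_le_of_norm_le_const (μ := haar) (f := x b) (C := C b)
        (Eventually.of_forall fun t => by rw [Real.norm_eq_abs]; exact hC b t)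
      simpa using this
    have h2 := hC b (m n • θ n)
    have h3 := abs_sub (x b (m n • θ n)) (∫ t, x b t ∂haar)
    linarith
  have hint : ∀ b, Integrable (Y b) tm := fun b =>
    Integrable.of_bound (hYm b).aestronglyMeasurable _ (Eventually.of_forall fun θ => by
      rw [Real.norm_eq_abs]; exact hb2 b θ)
  have hint2 : ∀ b, Integrable (fun θ => (Y b θ) ^ 2) tm := fun b =>
    Integrable.of_bound ((hYm b).pow_const 2).aestronglyMeasurable
      ((|δ b| * ((S b).card * (2 * C b))) ^ 2) (Eventually.of_forall fun θ => by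
        rw [Real.norm_eq_abs, abs_pow]
        exact pow_le_pow_left₀ (abs_nonneg _) (hb2 b θ) 2)
  have hsq : ∀ b, ∫ θ, (Y b θ) ^ 2 ∂tm ≤ (1 / 2) ^ b * (1 / 2) ^ b := by
    intro b
    have h1 : ∀ θ, (Y b θ) ^ 2 = δ b ^ 2 * (∑ n ∈ S b, (x b (m n • θ n) - ∫ t, x b t ∂haar)) ^ 2 := by
      intro θ
      rw [hY]
      simp only
      ring
    simp_rw [h1]
    rw [integral_const_mul]
    refine le_trans ?_ (hδ b)
    rw [mul_assoc]
    exact mul_le_mul_of_nonneg_left (second_moment (hx b) (hC b) (S b) hm) (sq_nonneg _)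
  have hl1 : ∀ b, ∫ θ, |Y b θ| ∂tm ≤ (1 / 2) ^ b := by
    intro b
    set e : ℝ := (1 / 2) ^ b with he
    have he0 : 0 < e := by positivity
    have h1 : ∫ θ, |Y b θ| ∂tm ≤ ∫ θ, ((1 / (2 * e)) * (Y b θ) ^ 2 + e / 2) ∂tm := by
      apply integral_mono_of_nonneg
      · exact Eventually.of_forall fun θ => abs_nonneg _
      · exact ((hint2 b).const_mul _).add (integrable_const _)
      · refine Eventually.of_forall fun θ => ?_
        beta_reduce
        have h3 : 0 ≤ (|Y b θ| - e) ^ 2 := sq_nonneg _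
        have h4 : (1 / (2 * e)) * (Y b θ) ^ 2 + e / 2 - |Y b θ| = (1 / (2 * e)) * (|Y b θ| - e) ^ 2 := by
          rw [← sq_abs (Y b θ)]
          field_simp
          ring
        have h5 : 0 ≤ (1 / (2 * e)) * (|Y b θ| - e) ^ 2 := by positivity
        linarith
    refine h1.trans ?_
    rw [integral_add ((hint2 b).const_mul _) (integrable_const _), integral_const_mul]
    simp only [integral_const, probReal_univ, one_smul]
    have h6 : (1 / (2 * e)) * ∫ θ, (Y b θ) ^ 2 ∂tm ≤ (1 / (2 * e)) * (e * e) :=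
      mul_le_mul_of_nonneg_left (hsq b) (by positivity)
    have h7 : (1 / (2 * e)) * (e * e) = e / 2 := by field_simp
    linarith
  have hlint : ∀ b, ∫⁻ θ, ENNReal.ofReal |Y b θ| ∂tm ≤ ENNReal.ofReal ((1 / 2) ^ b) := by
    intro b
    rw [← ofReal_integral_eq_lintegral_ofReal (hint b).abs (Eventually.of_forall fun θ => abs_nonneg _)]
    exact ENNReal.ofReal_le_ofReal (hl1 b)
  have hsum : ∫⁻ θ, ∑' b, ENNReal.ofReal |Y b θ| ∂tm ≠ ⊤ := by
    rw [lintegral_tsum fun b => ((hYm b).abs.ennreal_ofReal).aemeasurable]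
    have h1 : ∑' b, ∫⁻ θ, ENNReal.ofReal |Y b θ| ∂tm ≤ ∑' b : ℕ, ENNReal.ofReal ((1 / 2) ^ b) :=
      ENNReal.tsum_le_tsum hlint
    have h2 : ∑' b : ℕ, ENNReal.ofReal ((1 / 2) ^ b) ≠ ⊤ := by
      rw [← ENNReal.ofReal_tsum_of_nonneg (fun b => by positivity) summable_geometric_two]
      exact ENNReal.ofReal_ne_top
    exact ne_top_of_le_ne_top h2 h1
  have h3 : ∀ᵐ θ ∂tm, ∑' b, ENNReal.ofReal |Y b θ| < ⊤ :=
    ae_lt_top (Measurable.tsum fun b => (hYm b).abs.ennreal_ofReal) hsum
  filter_upwards [h3] with θ hθ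
  have h4 := ENNReal.summable_toReal hθ.ne
  have h5 : Summable fun b => |Y b θ| := by
    refine h4.congr fun b => ?_
    rw [ENNReal.toReal_ofReal (abs_nonneg _)]
  exact h5.of_abs

/-- strong law for blocks, complex version -/
theorem ae_summable_complex {x : ℕ → UnitAddCircle → ℂ} (hx : ∀ b, Measurable (x b)) {C : ℕ → ℝ}
    (hC : ∀ b t, ‖x b t‖ ≤ C b) (S : ℕ → Finset ℕ) {m : ℕ → ℕ} (hm : ∀ n, m n ≠ 0) (δ : ℕ → ℝ)
    (hδ : ∀ b, δ b ^ 2 * (S b).card * C b ^ 2 ≤ (1 / 2) ^ b * (1 / 2) ^ b) :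
    ∀ᵐ θ ∂tm, Summable fun b => (δ b : ℂ) * ∑ n ∈ S b, (x b (m n • θ n) - ∫ t, x b t ∂haar) := by
  have h1 := ae_summable_real (x := fun b t => (x b t).re) (fun b => Complex.measurable_re.comp (hx b))
    (C := C) (fun b t => (Complex.abs_re_le_norm _).trans (hC b t)) S hm δ hδ
  have h2 := ae_summable_real (x := fun b t => (x b t).im) (fun b => Complex.measurable_im.comp (hx b))
    (C := C) (fun b t => (Complex.abs_im_le_norm _).trans (hC b t)) S hm δ hδ
  have hint : ∀ b, Integrable (x b) haar := fun b =>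
    Integrable.of_bound (hx b).aestronglyMeasurable (C b) (Eventually.of_forall (hC b))
  have hre : ∀ b, (∫ t, x b t ∂haar).re = ∫ t, (x b t).re ∂haar := fun b =>
    (integral_re (hint b)).symm
  have him : ∀ b, (∫ t, x b t ∂haar).im = ∫ t, (x b t).im ∂haar := fun b =>
    (integral_im (hint b)).symm
  filter_upwards [h1, h2] with θ ha hb
  have h3 : Summable fun b => ((δ b * ∑ n ∈ S b, ((x b (m n • θ n)).re - ∫ t, (x b t).re ∂haar) : ℝ) : ℂ) +
      ((δ b * ∑ n ∈ S b, ((x b (m n • θ n)).im - ∫ t, (x b t).im ∂haar) : ℝ) : ℂ) * Complex.I :=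
    (Complex.ofRealCLM.summable ha).add ((Complex.ofRealCLM.summable hb).mul_right Complex.I)
  refine h3.congr fun b => ?_
  rw [← hre, ← him]
  apply Complex.ext
  · simp
  · simp

end Pool.Agent.R243.RT
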